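import Mathlib

set_option autoImplicit false

open MeasureTheory Finset Filter Topology
open scoped ENNReal

namespace H13.Dbl

/-- The algebra of bounded measurable real functions. -/
def BM (Ω : Type*) [MeasurableSpace Ω] : Subalgebra ℝ (Ω → ℝ) where
  carrier := {f | Measurable f ∧ ∃ C : ℝ, ∀ ω, |f ω| ≤ C}
  mul_mem' := by
    rintro f g ⟨hf, C, hC⟩ ⟨hg, D, hD⟩
    refine ⟨hf.mul hg, C * D, fun ω => ?_⟩
    rw [Pi.mul_apply, abs_mul]
    exact mul_le_mul (hC ω) (hD ω) (abs_nonneg _) ((abs_nonneg _).trans (hC ω))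
  add_mem' := by
    rintro f g ⟨hf, C, hC⟩ ⟨hg, D, hD⟩
    exact ⟨hf.add hg, C + D, fun ω => (abs_add_le _ _).trans (add_le_add (hC ω) (hD ω))⟩
  algebraMap_mem' := fun c => ⟨measurable_const, |c|, fun ω => le_rfl⟩

variable {Ω : Type*} [MeasurableSpace Ω]

theorem BM.measurable (f : BM Ω) : Measurable (f : Ω → ℝ) := f.2.1

theorem BM.bound (f : BM Ω) : ∃ C : ℝ, 0 ≤ C ∧ ∀ ω, |(f : Ω → ℝ) ω| ≤ C := by
  obtain ⟨C, hC⟩ := f.2.2
  exact ⟨max C 0, le_max_right _ _, fun ω => (hC ω).trans (le_max_left _ _)⟩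

theorem BM.memLp (μ : Measure Ω) [IsFiniteMeasure μ] (f : BM Ω) (p : ℝ≥0∞) :
    MemLp (f : Ω → ℝ) p μ := by
  obtain ⟨C, hC⟩ := f.2.2
  exact MemLp.of_bound (BM.measurable f).aestronglyMeasurable C (Eventually.of_forall hC)

theorem BM.integrable (μ : Measure Ω) [IsFiniteMeasure μ] (f : BM Ω) :
    Integrable (f : Ω → ℝ) μ := memLp_one_iff_integrable.mp (BM.memLp μ f 1)

theorem BM.integrable_mul (μ : Measure Ω) [IsFiniteMeasure μ] {f : Ω → ℝ} (hf : Integrable f μ)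
    (g : BM Ω) : Integrable (fun ω => f ω * (g : Ω → ℝ) ω) μ := by
  obtain ⟨C, hC⟩ := g.2.2
  exact hf.mul_bdd (BM.measurable g).aestronglyMeasurable (Eventually.of_forall hC)

/-- pairing with an integrable function. -/
noncomputable def pair (μ : Measure Ω) [IsFiniteMeasure μ] (f : Ω → ℝ) (hf : Integrable f μ) :
    BM Ω →ₗ[ℝ] ℝ where
  toFun g := ∫ ω, f ω * (g : Ω → ℝ) ω ∂μ
  map_add' g h := by
    rw [← integral_add (BM.integrable_mul μ hf g) (BM.integrable_mul μ hf h)]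
    congr 1
    ext ω
    simp [mul_add]
  map_smul' c g := by
    simp only [RingHom.id_apply, smul_eq_mul]
    rw [← integral_const_mul]
    congr 1
    ext ω
    simp only [Subalgebra.coe_smul, Pi.smul_apply, smul_eq_mul]
    ring

/-- the inner product. -/
noncomputable def ip (μ : Measure Ω) [IsFiniteMeasure μ] : BM Ω →ₗ[ℝ] BM Ω →ₗ[ℝ] ℝ :=
  LinearMap.mk₂ ℝ (fun f g => ∫ ω, (f : Ω → ℝ) ω * (g : Ω → ℝ) ω ∂μ)
    (fun f g h => by
      rw [← integral_add (BM.integrable_mul μ (BM.integrable μ f) h)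
        (BM.integrable_mul μ (BM.integrable μ g) h)]
      congr 1
      ext ω
      simp [add_mul])
    (fun c f g => by
      rw [smul_eq_mul, ← integral_const_mul]
      congr 1
      ext ω
      simp only [Subalgebra.coe_smul, Pi.smul_apply, smul_eq_mul]
      ring)
    (fun f g h => (pair μ f (BM.integrable μ f)).map_add g h)
    (fun c f g => (pair μ f (BM.integrable μ f)).map_smul c g)

theorem ip_apply (μ : Measure Ω) [IsFiniteMeasure μ] (f g : BM Ω) :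
    ip μ f g = ∫ ω, (f : Ω → ℝ) ω * (g : Ω → ℝ) ω ∂μ := rfl

theorem ip_comm (μ : Measure Ω) [IsFiniteMeasure μ] (f g : BM Ω) : ip μ f g = ip μ g f := by
  rw [ip_apply, ip_apply]
  congr 1
  ext ω
  ring

theorem ip_self_nonneg (μ : Measure Ω) [IsFiniteMeasure μ] (f : BM Ω) : 0 ≤ ip μ f f := by
  rw [ip_apply]
  exact integral_nonneg fun ω => mul_self_nonneg _

theorem ip_self_eq (μ : Measure Ω) [IsFiniteMeasure μ] (f : BM Ω) :
    ip μ f f = ∫ ω, (f : Ω → ℝ) ω ^ 2 ∂μ := by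
  rw [ip_apply]
  congr 1
  ext ω
  ring

theorem lintegral_enorm_pow (μ : Measure Ω) [IsFiniteMeasure μ] (f : BM Ω) (n : ℕ)
    (hn : Even n) :
    ∫⁻ ω, ‖(f : Ω → ℝ) ω‖ₑ ^ n ∂μ = ENNReal.ofReal (∫ ω, (f : Ω → ℝ) ω ^ n ∂μ) := by
  have hint : Integrable (fun ω => (f : Ω → ℝ) ω ^ n) μ := BM.integrable μ (f ^ n)
  rw [ofReal_integral_eq_lintegral_ofReal hint (Eventually.of_forall fun ω => hn.pow_nonneg _)]
  congr 1
  ext ω
  rw [Real.enorm_eq_ofReal_abs, ← ENNReal.ofReal_pow (abs_nonneg _), hn.pow_abs]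

/-- square functions with summable integrals tend to zero a.e. -/
theorem ae_tendsto_zero {μ : Measure Ω} (f : ℕ → Ω → ℝ) (hf : ∀ b, Measurable (f b))
    (h : ∑' b, ∫⁻ ω, ‖f b ω‖ₑ ^ 2 ∂μ ≠ ⊤) :
    ∀ᵐ ω ∂μ, Tendsto (fun b => f b ω) atTop (𝓝 0) := by
  have hm : ∀ b, Measurable fun ω => ‖f b ω‖ₑ ^ 2 := fun b => (hf b).enorm.pow_const 2
  rw [← lintegral_tsum fun b => (hm b).aemeasurable] at h
  filter_upwards [ae_lt_top (Measurable.tsum hm) h] with ω hω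
  have h0 := ENNReal.tendsto_atTop_zero_of_tsum_ne_top hω.ne
  rw [tendsto_zero_iff_enorm_tendsto_zero]
  have h1 : Tendsto (fun b => (‖f b ω‖ₑ ^ 2) ^ (1 / 2 : ℝ)) atTop (𝓝 (0 ^ (1 / 2 : ℝ))) :=
    (ENNReal.continuous_rpow_const.tendsto 0).comp h0
  rw [ENNReal.zero_rpow_of_pos (by norm_num)] at h1
  refine h1.congr fun b => ?_
  rw [← ENNReal.rpow_natCast, ← ENNReal.rpow_mul]
  norm_num

end H13.Dbl
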