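import Mathlib
import Pool.Agent.Results.MP_aa1cf3_an.Defs

set_option autoImplicit false

open Finset Filter Topology

namespace H13.Dbl

open Pool.Agent.Results.MP_aa1cf3_an

/-- block boundaries. -/
def tt (K : ℕ → ℕ) (b : ℕ) : ℕ := ∑ j ∈ range b, K j

/-- index of the block containing `n`. -/
def blk (K : ℕ → ℕ) (n : ℕ) : ℕ := Nat.findGreatest (fun b => tt K b ≤ n) n

theorem tt_zero (K : ℕ → ℕ) : tt K 0 = 0 := by simp [tt]

theorem tt_succ (K : ℕ → ℕ) (b : ℕ) : tt K (b + 1) = tt K b + K b := by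
  simp [tt, Finset.sum_range_succ]

theorem tt_strictMono (K : ℕ → ℕ) (hK : ∀ b, 0 < K b) : StrictMono (tt K) :=
  strictMono_nat_of_lt_succ fun b => by rw [tt_succ]; have := hK b; omega

theorem tt_blk_le (K : ℕ → ℕ) (n : ℕ) : tt K (blk K n) ≤ n := by
  have := Nat.findGreatest_spec (P := fun b => tt K b ≤ n) (m := 0) (n := n) (Nat.zero_le _)
    (by rw [tt_zero]; exact Nat.zero_le _)
  exact this

theorem lt_tt_blk_succ (K : ℕ → ℕ) (hK : ∀ b, 0 < K b) (n : ℕ) : n < tt K (blk K n + 1) := by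
  by_contra hcon
  rw [not_lt] at hcon
  have h1 : blk K n + 1 ≤ n := ((tt_strictMono K hK).le_apply).trans hcon
  have := Nat.findGreatest_is_greatest (P := fun b => tt K b ≤ n) (n := n) (k := blk K n + 1)
    (by unfold blk; omega) h1
  exact this hcon

theorem blk_eq (K : ℕ → ℕ) (hK : ∀ b, 0 < K b) (b n : ℕ) (h1 : tt K b ≤ n)
    (h2 : n < tt K (b + 1)) : blk K n = b := by
  have hm := tt_strictMono K hK
  have h3 := tt_blk_le K n
  have h4 := lt_tt_blk_succ K hK n
  have h5 : b < blk K n + 1 := hm.lt_iff_lt.mp (lt_of_le_of_lt h1 h4)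
  have h6 : blk K n < b + 1 := hm.lt_iff_lt.mp (lt_of_le_of_lt h3 h2)
  omega

theorem blk_tendsto (K : ℕ → ℕ) (hK : ∀ b, 0 < K b) : Tendsto (blk K) atTop atTop := by
  rw [tendsto_atTop_atTop]
  intro b
  refine ⟨tt K b, fun n hn => ?_⟩
  have h4 := lt_tt_blk_succ K hK n
  have h5 : b < blk K n + 1 := (tt_strictMono K hK).lt_iff_lt.mp (lt_of_le_of_lt hn h4)
  omega

theorem sum_range_tt {M : Type*} [AddCommMonoid M] (K : ℕ → ℕ) (F : ℕ → M) (b : ℕ) :
    ∑ m ∈ range (tt K b), F m = ∑ j ∈ range b, ∑ m ∈ Ico (tt K j) (tt K (j + 1)), F m := by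
  induction b with
  | zero => simp [tt_zero]
  | succ b ih =>
    rw [Finset.sum_range_succ, ← ih, Finset.sum_range_add_sum_Ico]
    rw [tt_succ]; omega

theorem conv_blocks (K : ℕ → ℕ) (hK : ∀ b, 0 < K b) (F : ℕ → ℝ)
    (h1 : SeriesConverges (fun j => ∑ m ∈ Ico (tt K j) (tt K (j + 1)), F m))
    (W : ℕ → ℝ) (hW : Tendsto W atTop (𝓝 0))
    (h2 : ∀ b n, tt K b ≤ n → n ≤ tt K (b + 1) → |∑ m ∈ Ico (tt K b) n, F m| ≤ W b) :
    SeriesConverges F := by
  obtain ⟨s, hs⟩ := h1
  refine ⟨s, ?_⟩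
  have e : ∀ n, ∑ m ∈ range n, F m = ∑ j ∈ range (blk K n), ∑ m ∈ Ico (tt K j) (tt K (j + 1)), F m
      + ∑ m ∈ Ico (tt K (blk K n)) n, F m := by
    intro n
    rw [← sum_range_tt, Finset.sum_range_add_sum_Ico _ (tt_blk_le K n)]
  have a1 : Tendsto (fun n => ∑ j ∈ range (blk K n), ∑ m ∈ Ico (tt K j) (tt K (j + 1)), F m) atTop
      (𝓝 s) := hs.comp (blk_tendsto K hK)
  have a2 : Tendsto (fun n => ∑ m ∈ Ico (tt K (blk K n)) n, F m) atTop (𝓝 0) := by
    refine squeeze_zero_norm (fun n => ?_) (hW.comp (blk_tendsto K hK))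
    rw [Real.norm_eq_abs]
    exact h2 (blk K n) n (tt_blk_le K n) (lt_tt_blk_succ K hK n).le
  have := a1.add a2
  rw [add_zero] at this
  exact this.congr fun n => (e n).symm

theorem summable_blocks (K : ℕ → ℕ) (f : ℕ → ℝ) (hf : ∀ n, 0 ≤ f n) (hs : Summable f) :
    Summable (fun j => ∑ m ∈ Ico (tt K j) (tt K (j + 1)), f m) := by
  refine summable_of_sum_range_le (c := ∑' n, f n)
    (fun j => Finset.sum_nonneg fun m _ => hf m) fun n => ?_
  rw [← sum_range_tt]
  exact hs.sum_le_tsum _ fun m _ => hf m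

/-- The mixing matrices: orthogonal, small first column, rows with bounded `l¹` norm. -/
theorem exists_matrix (N : ℕ) : ∃ (k : ℕ) (H : Matrix (Fin (k + 1)) (Fin (k + 1)) ℝ),
    H * H.transpose = 1 ∧ (∀ s, |H s 0| ≤ (1 / Real.sqrt 2) ^ N) ∧
      ∀ s, ∑ l : Fin k, |H s l.succ| ≤ 3 := by
  induction N with
  | zero =>
    refine ⟨0, 1, by simp, fun s => ?_, fun s => by simp⟩
    have : s = 0 := Fin.fin_one_eq_zero s
    subst this
    simp
  | succ N ih =>
    obtain ⟨k, H, hH, h1, h2⟩ := ih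
    set c : ℝ := 1 / Real.sqrt 2 with hc
    have hcpos : 0 < c := by positivity
    have hc2 : c * c = 1 / 2 := by
      rw [hc, div_mul_div_comm, Real.mul_self_sqrt (by norm_num), one_mul]
    -- columns: first `Fin (k+1)` (old), then `Fin (k+1)` (new)
    let H' : Matrix (Fin (k + 1) ⊕ Fin (k + 1)) (Fin (k + 1) ⊕ Fin (k + 1)) ℝ :=
      Matrix.fromBlocks (c • H) (c • (1 : Matrix (Fin (k + 1)) (Fin (k + 1)) ℝ)) (c • H)
        (-(c • (1 : Matrix (Fin (k + 1)) (Fin (k + 1)) ℝ)))
    have hH' : H' * H'.transpose = 1 := by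
      rw [Matrix.fromBlocks_transpose, Matrix.fromBlocks_multiply]
      simp only [Matrix.transpose_smul, Matrix.transpose_one, Matrix.transpose_neg,
        Matrix.smul_mul, Matrix.mul_smul, hH, Matrix.mul_one, Matrix.mul_neg, Matrix.neg_mul,
        smul_smul, hc2, neg_neg, smul_neg]
      have e1 : ((1 / 2 : ℝ) • (1 : Matrix (Fin (k + 1)) (Fin (k + 1)) ℝ) + (1 / 2 : ℝ) •
          (1 : Matrix (Fin (k + 1)) (Fin (k + 1)) ℝ)) = 1 := by
        rw [← add_smul]; norm_num
      have e2 : ((1 / 2 : ℝ) • (1 : Matrix (Fin (k + 1)) (Fin (k + 1)) ℝ) + -((1 / 2 : ℝ) •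
          (1 : Matrix (Fin (k + 1)) (Fin (k + 1)) ℝ))) = 0 := add_neg_cancel _
      rw [e1, e2, Matrix.fromBlocks_one]
    let e : Fin (k + 1) ⊕ Fin (k + 1) ≃ Fin ((k + 1) + (k + 1)) := finSumFinEquiv
    have hnn : (k + 1) + (k + 1) = (k + (k + 1)) + 1 := by omega
    let e' : Fin (k + 1) ⊕ Fin (k + 1) ≃ Fin ((k + (k + 1)) + 1) := e.trans (finCongr hnn)
    have he0 : e' (Sum.inl 0) = 0 := by
      apply Fin.ext
      simp [e', e]
    refine ⟨k + (k + 1), Matrix.reindex e' e' H', ?_, ?_, ?_⟩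
    · rw [Matrix.transpose_reindex, Matrix.reindex_apply, Matrix.reindex_apply,
        Matrix.submatrix_mul_equiv, hH']
      simp
    · intro s
      rw [Matrix.reindex_apply, Matrix.submatrix_apply, ← he0, Equiv.symm_apply_apply]
      rcases e'.symm s with i | i
      · simp only [H', Matrix.fromBlocks_apply₁₁, Matrix.smul_apply, smul_eq_mul]
        rw [abs_mul, abs_of_pos hcpos, pow_succ, mul_comm]
        exact mul_le_mul_of_nonneg_right (h1 i) hcpos.le
      · simp only [H', Matrix.fromBlocks_apply₂₁, Matrix.smul_apply, smul_eq_mul]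
        rw [abs_mul, abs_of_pos hcpos, pow_succ, mul_comm]
        exact mul_le_mul_of_nonneg_right (h1 i) hcpos.le
    · intro s
      have hall : ∑ l : Fin ((k + (k + 1)) + 1), |Matrix.reindex e' e' H' s l| =
          |Matrix.reindex e' e' H' s 0| + ∑ l : Fin (k + (k + 1)), |Matrix.reindex e' e' H' s l.succ| :=
        Fin.sum_univ_succ _
      have hall2 : ∑ l : Fin ((k + (k + 1)) + 1), |Matrix.reindex e' e' H' s l| =
          ∑ l : Fin (k + 1) ⊕ Fin (k + 1), |H' (e'.symm s) l| := by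
        rw [← Equiv.sum_comp e']
        simp [Matrix.reindex_apply]
      have h00 : Matrix.reindex e' e' H' s 0 = H' (e'.symm s) (Sum.inl 0) := by
        rw [Matrix.reindex_apply, Matrix.submatrix_apply, ← he0, Equiv.symm_apply_apply]
      have hc3 : c * 4 ≤ 3 := by
        have : c ≤ 3 / 4 := by
          rw [hc, div_le_iff₀ (by positivity)]
          have : (4 / 3 : ℝ) ≤ Real.sqrt 2 := by
            apply Real.le_sqrt_of_sq_le; norm_num
          linarith
        linarith
      have key : ∀ i : Fin (k + 1), ∑ l : Fin (k + 1), |c * H i l| + ∑ l : Fin (k + 1), |c * (1 : Matrix (Fin (k + 1)) (Fin (k + 1)) ℝ) i l|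
          - |c * H i 0| ≤ 3 := by
        intro i
        have a1 : ∑ l : Fin (k + 1), |c * H i l| = |c * H i 0| + c * ∑ l : Fin k, |H i l.succ| := by
          rw [Fin.sum_univ_succ, Finset.mul_sum]
          simp only [abs_mul, abs_of_pos hcpos]
        have a2 : ∑ l : Fin (k + 1), |c * (1 : Matrix (Fin (k + 1)) (Fin (k + 1)) ℝ) i l| = c := by
          rw [Finset.sum_eq_single i]
          · simp [abs_of_pos hcpos]
          · intro j _ hj
            simp [Matrix.one_apply_ne hj.symm]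
          · simp
        rw [a1, a2]
        have := mul_le_mul_of_nonneg_left (h2 i) hcpos.le
        linarith
      rw [hall2, Fintype.sum_sum_type, h00] at hall
      rcases hs : e'.symm s with i | i
      · rw [hs] at hall
        simp only [H', Matrix.fromBlocks_apply₁₁, Matrix.fromBlocks_apply₁₂, Matrix.smul_apply,
          smul_eq_mul] at hall
        have := key i
        linarith
      · rw [hs] at hall
        simp only [H', Matrix.fromBlocks_apply₂₁, Matrix.fromBlocks_apply₂₂, Matrix.smul_apply,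
          smul_eq_mul, Matrix.neg_apply, abs_neg] at hall
        have := key i
        linarith

end H13.Dbl
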