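import Mathlib
import Pool.Agent.H13.Dbl.BM

set_option autoImplicit false

open MeasureTheory Finset Filter Topology
open scoped ENNReal

namespace H13.Dbl

variable {Ω : Type*} [MeasurableSpace Ω]

/-- expectation. -/
noncomputable def Ex (μ : Measure Ω) [IsFiniteMeasure μ] : BM Ω →ₗ[ℝ] ℝ := ip μ 1

theorem Ex_apply (μ : Measure Ω) [IsFiniteMeasure μ] (f : BM Ω) :
    Ex μ f = ∫ ω, (f : Ω → ℝ) ω ∂μ := by
  unfold Ex
  rw [ip_apply]
  simp

theorem ip_eq_Ex (μ : Measure Ω) [IsFiniteMeasure μ] (f g : BM Ω) : ip μ f g = Ex μ (f * g) := by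
  rw [Ex_apply, ip_apply]
  rfl

/-- A system of signs: values `±1`, and the integrals of the Walsh products vanish. -/
structure SignSystem (μ : Measure Ω) [IsProbabilityMeasure μ] (r : ℕ → BM Ω) : Prop where
  sign : ∀ n ω, (r n : Ω → ℝ) ω = 1 ∨ (r n : Ω → ℝ) ω = -1
  walsh : ∀ s : Finset ℕ, s.Nonempty → Ex μ (∏ n ∈ s, r n) = 0

variable {μ : Measure Ω} [IsProbabilityMeasure μ] {r : ℕ → BM Ω}

theorem SignSystem.sq (h : SignSystem μ r) (n : ℕ) : r n * r n = 1 := by
  apply Subtype.ext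
  ext ω
  rw [Subalgebra.coe_mul, Pi.mul_apply]
  rcases h.sign n ω with h1 | h1 <;> rw [h1] <;> simp

theorem Ex_one : Ex μ (1 : BM Ω) = 1 := by
  rw [Ex_apply]
  simp

/-- The algebra generated by `r l`, `l < n`. -/
def AA (r : ℕ → BM Ω) (n : ℕ) : Subalgebra ℝ (BM Ω) := Algebra.adjoin ℝ (r '' {l | l < n})

theorem AA_mono {n m : ℕ} (h : n ≤ m) : AA r n ≤ AA r m :=
  Algebra.adjoin_mono (Set.image_mono fun _ hl => lt_of_lt_of_le hl h)

theorem r_mem_AA {l n : ℕ} (h : l < n) : r l ∈ AA r n := Algebra.subset_adjoin ⟨l, h, rfl⟩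

theorem mem_closure_W (h : SignSystem μ r) (n : ℕ) (x : BM Ω)
    (hx : x ∈ Submonoid.closure (r '' {l | l < n})) :
    ∃ s : Finset ℕ, (∀ l ∈ s, l < n) ∧ x = ∏ l ∈ s, r l := by
  classical
  induction hx using Submonoid.closure_induction_left with
  | one => exact ⟨∅, by simp, by simp⟩
  | mul_left x hx y hy ih =>
    obtain ⟨l, hl, rfl⟩ := hx
    obtain ⟨s, hs, rfl⟩ := ih
    by_cases hls : l ∈ s
    · refine ⟨s.erase l, fun l' hl' => hs l' (Finset.mem_of_mem_erase hl'), ?_⟩
      rw [← Finset.mul_prod_erase s _ hls, ← mul_assoc, h.sq, one_mul]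
    · refine ⟨insert l s, fun l' hl' => ?_, ?_⟩
      · rcases Finset.mem_insert.mp hl' with rfl | h'
        · exact hl
        · exact hs l' h'
      · rw [Finset.prod_insert hls]

theorem Ex_r_mul (h : SignSystem μ r) (n : ℕ) (F : BM Ω) (hF : F ∈ AA r n) :
    Ex μ (r n * F) = 0 := by
  classical
  have hF' : F ∈ Submodule.span ℝ (Submonoid.closure (r '' {l | l < n}) : Set (BM Ω)) := by
    rw [← Algebra.adjoin_eq_span]
    exact hF
  have hle : Submodule.span ℝ (Submonoid.closure (r '' {l | l < n}) : Set (BM Ω)) ≤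
      LinearMap.ker ((Ex μ).comp (LinearMap.mulLeft ℝ (r n))) := by
    rw [Submodule.span_le]
    intro x hx
    obtain ⟨s, hs, rfl⟩ := mem_closure_W h n x hx
    have hns : n ∉ s := fun hn => lt_irrefl _ (hs n hn)
    simp only [SetLike.mem_coe, LinearMap.mem_ker, LinearMap.comp_apply, LinearMap.mulLeft_apply]
    rw [← Finset.prod_insert hns]
    exact h.walsh _ (Finset.insert_nonempty _ _)
  exact hle hF'

theorem ip_level_ne (h : SignSystem μ r) (n m : ℕ) (hnm : n ≠ m) (F G : BM Ω) (hF : F ∈ AA r n)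
    (hG : G ∈ AA r m) : ip μ (r n * F) (r m * G) = 0 := by
  rcases lt_or_gt_of_ne hnm with hlt | hlt
  · have e : ip μ (r n * F) (r m * G) = Ex μ (r m * (r n * F * G)) := by
      rw [ip_eq_Ex]; congr 1; ring
    rw [e]
    exact Ex_r_mul h m _ (mul_mem (mul_mem (r_mem_AA hlt) (AA_mono hlt.le hF)) hG)
  · have e : ip μ (r n * F) (r m * G) = Ex μ (r n * (r m * G * F)) := by
      rw [ip_eq_Ex]; congr 1; ring
    rw [e]
    exact Ex_r_mul h n _ (mul_mem (mul_mem (r_mem_AA hlt) (AA_mono hlt.le hG)) hF)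

theorem ip_level_eq (h : SignSystem μ r) (n : ℕ) (F G : BM Ω) :
    ip μ (r n * F) (r n * G) = Ex μ (F * G) := by
  rw [ip_eq_Ex]
  congr 1
  calc r n * F * (r n * G) = (r n * r n) * (F * G) := by ring
    _ = F * G := by rw [h.sq, one_mul]

/-- the sign of the last binary digit. -/
def ep (k : ℕ) : ℝ := if k % 2 = 0 then 1 else -1

/-- the indicators of the atoms of level `j`, `k < 2 ^ j`. -/
noncomputable def at' (r : ℕ → BM Ω) : ℕ → ℕ → BM Ω
  | 0, _ => 1
  | j + 1, k => at' r j (k / 2) * ((1 / 2 : ℝ) • (1 + ep k • r j))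

theorem at_zero (k : ℕ) : at' r 0 k = 1 := rfl

theorem at_succ (j k : ℕ) : at' r (j + 1) k = at' r j (k / 2) * ((1 / 2 : ℝ) • (1 + ep k • r j)) :=
  rfl

theorem at_mem (j k : ℕ) : at' r j k ∈ AA r j := by
  induction j generalizing k with
  | zero => exact one_mem _
  | succ j ih =>
    rw [at_succ]
    refine mul_mem (AA_mono (Nat.le_succ j) (ih _)) ?_
    exact Subalgebra.smul_mem _ (add_mem (one_mem _) (Subalgebra.smul_mem _
      (r_mem_AA (Nat.lt_succ_self j)) _)) _

theorem half_sq (h : SignSystem μ r) (j : ℕ) (e : ℝ) (he : e * e = 1) :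
    ((1 / 2 : ℝ) • (1 + e • r j)) * ((1 / 2 : ℝ) • (1 + e • r j)) = (1 / 2 : ℝ) • (1 + e • r j) := by
  have hs := h.sq j
  rw [smul_mul_smul_comm, mul_add, add_mul, add_mul, smul_mul_smul_comm, hs, he]
  simp only [one_mul, mul_one, one_smul]
  have : (1 : BM Ω) + e • r j + (e • r j + 1) = (2 : ℝ) • (1 + e • r j) := by
    rw [two_smul]; abel
  rw [this, smul_smul]
  norm_num

theorem half_mul (h : SignSystem μ r) (j : ℕ) (e : ℝ) (he : e * e = 1) :
    ((1 / 2 : ℝ) • (1 + e • r j)) * ((1 / 2 : ℝ) • (1 + (-e) • r j)) = 0 := by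
  have hs := h.sq j
  rw [smul_mul_smul_comm, mul_add, add_mul, add_mul, smul_mul_smul_comm, hs]
  simp only [one_mul, mul_one, mul_neg, he]
  have : (1 : BM Ω) + e • r j + (-e • r j + -1 • 1) = 0 := by
    rw [neg_smul]
    simp only [neg_smul, one_smul]
    abel
  simp only [neg_smul, one_smul] at this ⊢
  rw [this, smul_zero]

theorem ep_sq (k : ℕ) : ep k * ep k = 1 := by
  unfold ep
  split_ifs <;> norm_num

theorem ep_neg (k k' : ℕ) (h : k % 2 ≠ k' % 2) : ep k' = - ep k := by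
  unfold ep
  have h1 : k % 2 = 0 ∨ k % 2 = 1 := by omega
  have h2 : k' % 2 = 0 ∨ k' % 2 = 1 := by omega
  rcases h1 with h1 | h1 <;> rcases h2 with h2 | h2 <;> simp_all

theorem at_sq (h : SignSystem μ r) (j k : ℕ) : at' r j k * at' r j k = at' r j k := by
  induction j generalizing k with
  | zero => rw [at_zero, mul_one]
  | succ j ih =>
    rw [at_succ, mul_mul_mul_comm, ih, half_sq h j _ (ep_sq k)]

theorem at_mul (h : SignSystem μ r) (j k k' : ℕ) (hk : k < 2 ^ j) (hk' : k' < 2 ^ j)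
    (hne : k ≠ k') : at' r j k * at' r j k' = 0 := by
  induction j generalizing k k' with
  | zero =>
    exfalso
    rw [pow_zero] at hk hk'
    omega
  | succ j ih =>
    rw [at_succ, at_succ, mul_mul_mul_comm]
    rw [pow_succ] at hk hk'
    by_cases hd : k / 2 = k' / 2
    · rw [ep_neg k k' (by omega), half_mul h j _ (ep_sq k), mul_zero]
    · rw [ih _ _ (by omega) (by omega) hd, zero_mul]

theorem sum_range_two_mul {M : Type*} [AddCommMonoid M] (f : ℕ → M) (n : ℕ) :
    ∑ k ∈ range (2 * n), f k = ∑ k ∈ range n, (f (2 * k) + f (2 * k + 1)) := by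
  induction n with
  | zero => simp
  | succ n ih =>
    rw [show 2 * (n + 1) = 2 * n + 1 + 1 by ring, Finset.sum_range_succ, Finset.sum_range_succ, ih,
      Finset.sum_range_succ, add_assoc]

theorem at_sum (j : ℕ) : ∑ k ∈ range (2 ^ j), at' r j k = 1 := by
  induction j with
  | zero => simp [at_zero]
  | succ j ih =>
    rw [pow_succ, mul_comm, sum_range_two_mul, ← ih]
    refine Finset.sum_congr rfl fun k _ => ?_
    rw [at_succ, at_succ]
    have e0 : 2 * k / 2 = k := by omega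
    have e1 : (2 * k + 1) / 2 = k := by omega
    have f0 : ep (2 * k) = 1 := by unfold ep; rw [if_pos (by omega)]
    have f1 : ep (2 * k + 1) = -1 := by unfold ep; rw [if_neg (by omega)]
    rw [e0, e1, f0, f1, ← mul_add, ← smul_add]
    have : (1 : BM Ω) + (1 : ℝ) • r j + (1 + (-1 : ℝ) • r j) = (2 : ℝ) • 1 := by
      rw [neg_smul, one_smul, two_smul]
      abel
    rw [this, smul_smul]
    norm_num

theorem Ex_at (h : SignSystem μ r) (j k : ℕ) : Ex μ (at' r j k) = (1 / 2) ^ j := by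
  induction j generalizing k with
  | zero => rw [at_zero, Ex_one, pow_zero]
  | succ j ih =>
    rw [at_succ, mul_smul_comm, mul_add, mul_one, mul_smul_comm, map_smul, map_add, map_smul,
      mul_comm (at' r j (k / 2)) (r j), Ex_r_mul h j _ (at_mem _ _), ih, pow_succ]
    simp only [smul_eq_mul, mul_zero, add_zero]
    ring

theorem r_mul_at (h : SignSystem μ r) (l j k : ℕ) (hl : l < j) :
    ∃ c : ℝ, r l * at' r j k = c • at' r j k := by
  induction j generalizing k with
  | zero => omega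
  | succ j ih =>
    rcases Nat.lt_or_ge l j with hlt | hge
    · obtain ⟨c, hc⟩ := ih (k / 2) hlt
      refine ⟨c, ?_⟩
      rw [at_succ, ← mul_assoc, hc, smul_mul_assoc]
    · have : l = j := by omega
      subst this
      refine ⟨ep k, ?_⟩
      have hs := h.sq l
      have hh : r l * ((1 / 2 : ℝ) • (1 + ep k • r l)) = ep k • ((1 / 2 : ℝ) • (1 + ep k • r l)) := by
        rw [mul_smul_comm, mul_add, mul_smul_comm, hs, mul_one, smul_comm (ep k) (1 / 2 : ℝ)]
        congr 1
        rw [smul_add, smul_smul, ep_sq, one_smul, add_comm]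
      calc r l * at' r (l + 1) k = at' r l (k / 2) * (r l * ((1 / 2 : ℝ) • (1 + ep k • r l))) := by
            rw [at_succ]; ring
        _ = ep k • at' r (l + 1) k := by rw [hh, mul_smul_comm, at_succ]

theorem AA_mul_at (h : SignSystem μ r) (j : ℕ) (F : BM Ω) (hF : F ∈ AA r j) (k : ℕ) :
    ∃ c : ℝ, F * at' r j k = c • at' r j k := by
  induction hF using Algebra.adjoin_induction with
  | mem x hx =>
    obtain ⟨l, hl, rfl⟩ := hx
    exact r_mul_at h l j k hl
  | algebraMap c =>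
    exact ⟨c, by rw [Algebra.algebraMap_eq_smul_one, smul_mul_assoc, one_mul]⟩
  | add x y _ _ hx hy =>
    obtain ⟨c, hc⟩ := hx
    obtain ⟨d, hd⟩ := hy
    exact ⟨c + d, by rw [add_mul, hc, hd, add_smul]⟩
  | mul x y _ _ hx hy =>
    obtain ⟨c, hc⟩ := hx
    obtain ⟨d, hd⟩ := hy
    exact ⟨d * c, by rw [mul_assoc, hd, mul_smul_comm, hc, smul_smul]⟩

theorem AA_eq (h : SignSystem μ r) (j : ℕ) (F : BM Ω) (hF : F ∈ AA r j) :
    ∃ c : ℕ → ℝ, F = ∑ k ∈ range (2 ^ j), c k • at' r j k := by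
  choose c hc using AA_mul_at h j F hF
  refine ⟨c, ?_⟩
  calc F = F * ∑ k ∈ range (2 ^ j), at' r j k := by rw [at_sum, mul_one]
    _ = _ := by
      rw [Finset.mul_sum]
      exact Finset.sum_congr rfl fun k _ => hc k

end H13.Dbl
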