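import Mathlib
import Pool.Agent.H13.Dbl.Signs
import Pool.Agent.Results.MP_aa1cf3_an.Defs

set_option autoImplicit false

open MeasureTheory Finset Filter Topology
open scoped ENNReal

namespace H13.Dbl

open Pool.Agent.Results.MP_aa1cf3_an

variable {Ω : Type*} [MeasurableSpace Ω]
variable {μ : Measure Ω} [IsProbabilityMeasure μ] {r : ℕ → BM Ω}

/-- the index of the atom of level `n` containing `ω`. -/
noncomputable def kap (r : ℕ → BM Ω) : ℕ → Ω → ℕ
  | 0, _ => 0
  | n + 1, ω => 2 * kap r n ω + (if (r n : Ω → ℝ) ω = 1 then 0 else 1)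

theorem kap_lt (n : ℕ) (ω : Ω) : kap r n ω < 2 ^ n := by
  induction n with
  | zero => simp [kap]
  | succ n ih =>
    rw [pow_succ, kap]
    split_ifs <;> omega

theorem kap_half (n : ℕ) (ω : Ω) : kap r (n + 1) ω / 2 = kap r n ω := by
  rw [kap]
  split_ifs <;> omega

theorem measurable_kap (n : ℕ) : Measurable (kap r n) := by
  induction n with
  | zero => exact measurable_const
  | succ n ih =>
    have h1 : Measurable fun ω => (if (r n : Ω → ℝ) ω = 1 then 0 else 1 : ℕ) :=
      Measurable.ite ((BM.measurable (r n)) (measurableSet_singleton 1)) measurable_const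
        measurable_const
    have h2 : Measurable fun ω => 2 * kap r n ω := (measurable_from_top (f := fun x : ℕ => 2 * x)).comp ih
    exact h2.add h1

theorem at_apply (h : SignSystem μ r) (n k : ℕ) (hk : k < 2 ^ n) (ω : Ω) :
    (at' r n k : Ω → ℝ) ω = if k = kap r n ω then 1 else 0 := by
  induction n generalizing k with
  | zero =>
    rw [pow_zero] at hk
    have : k = 0 := by omega
    subst this
    simp [at_zero, kap]
  | succ n ih =>
    rw [pow_succ] at hk
    rw [at_succ, Subalgebra.coe_mul, Pi.mul_apply, ih (k / 2) (by omega)]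
    rw [Subalgebra.coe_smul, Pi.smul_apply, Subalgebra.coe_add, Pi.add_apply, Subalgebra.coe_one,
      Pi.one_apply, Subalgebra.coe_smul, Pi.smul_apply, smul_eq_mul, smul_eq_mul]
    unfold ep
    rw [kap]
    rcases h.sign n ω with h1 | h1
    · rw [h1]
      by_cases hk2 : k % 2 = 0
      · rw [if_pos hk2]
        by_cases hkk : k / 2 = kap r n ω
        · rw [if_pos hkk, if_pos (by simp only [if_true]; omega)]; norm_num
        · rw [if_neg hkk, if_neg (by simp only [if_true]; omega)]; norm_num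
      · rw [if_neg hk2, if_neg (show ¬ (k = 2 * kap r n ω + if (1 : ℝ) = 1 then 0 else 1) by
          simp only [if_true]; omega)]
        norm_num
    · rw [h1]
      have h11 : ¬ ((-1 : ℝ) = 1) := by norm_num
      by_cases hk2 : k % 2 = 0
      · rw [if_pos hk2, if_neg (show ¬ (k = 2 * kap r n ω + if (-1 : ℝ) = 1 then 0 else 1) by
          rw [if_neg h11]; omega)]
        norm_num
      · rw [if_neg hk2]
        by_cases hkk : k / 2 = kap r n ω
        · rw [if_pos hkk, if_pos (by rw [if_neg h11]; omega)]; norm_num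
        · rw [if_neg hkk, if_neg (by rw [if_neg h11]; omega)]; norm_num

theorem AA_apply (h : SignSystem μ r) (n : ℕ) (F : BM Ω) (hF : F ∈ AA r n) :
    ∃ c : ℕ → ℝ, ∀ ω, (F : Ω → ℝ) ω = c (kap r n ω) := by
  obtain ⟨c, hc⟩ := AA_eq h n F hF
  refine ⟨c, fun ω => ?_⟩
  rw [hc, AddSubmonoidClass.coe_finsetSum, Finset.sum_apply]
  rw [Finset.sum_eq_single (kap r n ω)]
  · rw [Subalgebra.coe_smul, Pi.smul_apply, at_apply h n _ (kap_lt n ω), if_pos rfl, smul_eq_mul,
      mul_one]
  · intro k hk hne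
    rw [Subalgebra.coe_smul, Pi.smul_apply, at_apply h n _ (Finset.mem_range.mp hk), if_neg hne,
      smul_zero]
  · intro hk
    exact absurd (Finset.mem_range.mpr (kap_lt n ω)) hk

/-- the filtration. -/
noncomputable def filt (r : ℕ → BM Ω) : Filtration ℕ (inferInstance : MeasurableSpace Ω) where
  seq n := MeasurableSpace.comap (kap r n) ⊤
  mono' := by
    refine monotone_nat_of_le_succ fun n => ?_
    intro s hs
    obtain ⟨t, _, rfl⟩ := hs
    refine ⟨{k | k / 2 ∈ t}, trivial, ?_⟩
    ext ω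
    simp only [Set.mem_preimage, Set.mem_ofPred_eq]
    rw [kap_half]
  le' := fun n => Measurable.comap_le (measurable_kap n)

theorem AA_measurable (h : SignSystem μ r) (n : ℕ) (F : BM Ω) (hF : F ∈ AA r n) :
    StronglyMeasurable[filt r n] (F : Ω → ℝ) := by
  obtain ⟨c, hc⟩ := AA_apply h n F hF
  have : (F : Ω → ℝ) = c ∘ kap r n := funext hc
  rw [this]
  have hm : Measurable[filt r n] (c ∘ kap r n) :=
    (measurable_from_top (f := c)).comp (comap_measurable (kap r n))
  exact hm.stronglyMeasurable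

theorem filt_indicator (h : SignSystem μ r) (n : ℕ) (B : Set Ω)
    (hB : MeasurableSet[filt r n] B) : ∃ F ∈ AA r n, ∀ ω, (F : Ω → ℝ) ω = B.indicator 1 ω := by
  classical
  obtain ⟨t, _, rfl⟩ := hB
  refine ⟨∑ k ∈ range (2 ^ n), (if k ∈ t then (1 : ℝ) else 0) • at' r n k,
    Subalgebra.sum_mem _ fun k _ => Subalgebra.smul_mem _ (at_mem n k) _, fun ω => ?_⟩
  rw [AddSubmonoidClass.coe_finsetSum, Finset.sum_apply, Finset.sum_eq_single (kap r n ω)]
  · rw [Subalgebra.coe_smul, Pi.smul_apply, at_apply h n _ (kap_lt n ω), if_pos rfl, smul_eq_mul,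
      mul_one]
    by_cases hk : kap r n ω ∈ t
    · rw [if_pos hk, Set.indicator_of_mem (show ω ∈ kap r n ⁻¹' t from hk)]
      rfl
    · rw [if_neg hk, Set.indicator_of_notMem (show ω ∉ kap r n ⁻¹' t from hk)]
  · intro k hk hne
    rw [Subalgebra.coe_smul, Pi.smul_apply, at_apply h n _ (Finset.mem_range.mp hk), if_neg hne,
      smul_zero]
  · intro hk
    exact absurd (Finset.mem_range.mpr (kap_lt n ω)) hk

theorem level_conv (h : SignSystem μ r) (G : ℕ → BM Ω) (hG : ∀ j, G j ∈ AA r j)
    (hs : Summable fun j => Ex μ (G j * G j)) :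
    ∀ᵐ ω ∂μ, SeriesConverges (fun j => ((r j * G j : BM Ω) : Ω → ℝ) ω) := by
  set M : ℕ → BM Ω := fun n => ∑ j ∈ range n, r j * G j with hM
  have hMA : ∀ n, M n ∈ AA r n := by
    intro n
    refine Subalgebra.sum_mem _ fun j hj => ?_
    rw [Finset.mem_range] at hj
    exact mul_mem (r_mem_AA hj) (AA_mono hj.le (hG j))
  have hmart : Martingale (fun n => (M n : Ω → ℝ)) (filt r) μ := by
    refine martingale_of_setIntegral_eq_succ (fun n => AA_measurable h n _ (hMA n))
      (fun n => BM.integrable μ (M n)) fun n B hB => ?_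
    obtain ⟨F, hF, hFi⟩ := filt_indicator h n B hB
    have hBm : MeasurableSet B := (filt r).le n B hB
    have key : ∀ g : BM Ω, ∫ ω in B, (g : Ω → ℝ) ω ∂μ = Ex μ (F * g) := by
      intro g
      rw [Ex_apply, ← integral_indicator hBm]
      congr 1
      ext ω
      rw [Subalgebra.coe_mul, Pi.mul_apply, hFi]
      by_cases hω : ω ∈ B
      · rw [Set.indicator_of_mem hω, Set.indicator_of_mem hω]; simp
      · rw [Set.indicator_of_notMem hω, Set.indicator_of_notMem hω]; simp
    rw [key, key]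
    have hMs : M (n + 1) = M n + r n * G n := by
      rw [hM]; simp only; rw [Finset.sum_range_succ]
    rw [hMs, mul_add, map_add]
    have : Ex μ (F * (r n * G n)) = 0 := by
      rw [show F * (r n * G n) = r n * (F * G n) by ring]
      exact Ex_r_mul h n _ (mul_mem hF (hG n))
    rw [this, add_zero]
  have hM2 : ∀ n, ip μ (M n) (M n) = ∑ j ∈ range n, Ex μ (G j * G j) := by
    intro n
    induction n with
    | zero => simp [hM]
    | succ n ih =>
      have hMs : M (n + 1) = M n + r n * G n := by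
        rw [hM]; simp only; rw [Finset.sum_range_succ]
      rw [Finset.sum_range_succ, ← ih, hMs]
      simp only [map_add, LinearMap.add_apply]
      have e1 : ip μ (M n) (r n * G n) = 0 := by
        rw [ip_eq_Ex, show M n * (r n * G n) = r n * (M n * G n) by ring]
        exact Ex_r_mul h n _ (mul_mem (hMA n) (hG n))
      have e2 : ip μ (r n * G n) (M n) = 0 := by rw [ip_comm]; exact e1
      rw [e1, e2, ip_level_eq h]
      ring
  set R : ℝ := (1 + ∑' j, Ex μ (G j * G j)) / 2 with hR
  have hnn : ∀ j, 0 ≤ Ex μ (G j * G j) := fun j => by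
    rw [← ip_eq_Ex]; exact ip_self_nonneg μ _
  have hbdd : ∀ n, eLpNorm (M n : Ω → ℝ) 1 μ ≤ (Real.toNNReal R : ℝ≥0∞) := by
    intro n
    rw [eLpNorm_one_eq_lintegral_enorm]
    have h1 : ∀ ω, ‖(M n : Ω → ℝ) ω‖ₑ ≤
        ENNReal.ofReal ((((1 / 2 : ℝ) • (1 + M n * M n) : BM Ω) : Ω → ℝ) ω) := by
      intro ω
      rw [Real.enorm_eq_ofReal_abs]
      apply ENNReal.ofReal_le_ofReal
      rw [Subalgebra.coe_smul, Pi.smul_apply, Subalgebra.coe_add, Pi.add_apply, Subalgebra.coe_one,
        Pi.one_apply, Subalgebra.coe_mul, Pi.mul_apply, smul_eq_mul]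
      have := sq_nonneg (|(M n : Ω → ℝ) ω| - 1)
      have h2 := abs_mul_abs_self ((M n : Ω → ℝ) ω)
      nlinarith
    refine (lintegral_mono h1).trans ?_
    rw [← ofReal_integral_eq_lintegral_ofReal (BM.integrable μ _) ?_]
    · apply ENNReal.ofReal_le_ofReal
      rw [← Ex_apply, map_smul, map_add, Ex_one, ← ip_eq_Ex, hM2, hR, smul_eq_mul]
      have := hs.sum_le_tsum (range n) fun j _ => hnn j
      linarith
    · refine Eventually.of_forall fun ω => ?_
      simp only [Pi.zero_apply]
      rw [Subalgebra.coe_smul, Pi.smul_apply, Subalgebra.coe_add, Pi.add_apply, Subalgebra.coe_one,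
        Pi.one_apply, Subalgebra.coe_mul, Pi.mul_apply, smul_eq_mul]
      have := mul_self_nonneg ((M n : Ω → ℝ) ω)
      positivity
  filter_upwards [hmart.submartingale.exists_ae_tendsto_of_bdd hbdd] with ω hω
  obtain ⟨c, hc⟩ := hω
  refine ⟨c, hc.congr fun n => ?_⟩
  rw [hM]
  simp only
  rw [AddSubmonoidClass.coe_finsetSum, Finset.sum_apply]

/-- the `L⁴`-inequality for the span of the signs. -/
theorem signs_L4 (h : SignSystem μ r) (g : BM Ω) (hg : g ∈ Submodule.span ℝ (Set.range r)) :
    ∫ ω, (g : Ω → ℝ) ω ^ 4 ∂μ ≤ 3 * (ip μ g g) ^ 2 := by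
  obtain ⟨c, hc⟩ := (Finsupp.mem_span_range_iff_exists_finsupp).mp hg
  obtain ⟨N, hN⟩ : ∃ N, c.support ⊆ range N := by
    refine ⟨c.support.sup id + 1, fun x hx => ?_⟩
    rw [Finset.mem_range]
    exact Nat.lt_succ_of_le (Finset.le_sup (f := id) hx)
  have hg' : g = ∑ n ∈ range N, c n • r n := by
    rw [← hc, Finsupp.sum_of_support_subset c hN _ (fun n _ => by simp)]
  have key : ∀ N, (∑ n ∈ range N, c n • r n) ∈ AA r N ∧
      Ex μ ((∑ n ∈ range N, c n • r n) ^ 4) ≤
        3 * (Ex μ ((∑ n ∈ range N, c n • r n) ^ 2)) ^ 2 := by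
    intro N
    induction N with
    | zero => simp
    | succ N ih =>
      obtain ⟨ih1, ih2⟩ := ih
      set X : BM Ω := ∑ n ∈ range N, c n • r n with hX
      rw [Finset.sum_range_succ, ← hX]
      refine ⟨add_mem (AA_mono (Nat.le_succ N) ih1)
        (Subalgebra.smul_mem _ (r_mem_AA (Nat.lt_succ_self N)) _), ?_⟩
      have hs := h.sq N
      have e2 : (X + c N • r N) ^ 2 = X ^ 2 + (2 * c N) • (r N * X) + (c N ^ 2) • (1 : BM Ω) := by
        have : (X + c N • r N) ^ 2 = X ^ 2 + (2 * c N) • (r N * X) + (c N ^ 2) • (r N * r N) := by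
          simp only [Algebra.smul_def, map_mul, map_pow, map_ofNat]
          ring
        rw [this, hs]
      have e4 : (X + c N • r N) ^ 4 = X ^ 4 + (4 * c N) • (r N * X ^ 3) + (6 * c N ^ 2) • X ^ 2 +
          (4 * c N ^ 3) • (r N * X) + (c N ^ 4) • (1 : BM Ω) := by
        have : (X + c N • r N) ^ 4 = X ^ 4 + (4 * c N) • (r N * X ^ 3) +
            (6 * c N ^ 2) • ((r N * r N) * X ^ 2) + (4 * c N ^ 3) • ((r N * r N) * (r N * X)) +
            (c N ^ 4) • ((r N * r N) * (r N * r N)) := by
          simp only [Algebra.smul_def, map_mul, map_pow, map_ofNat]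
          ring
        rw [this, hs]
        simp only [one_mul]
      have z1 : Ex μ (r N * X) = 0 := Ex_r_mul h N _ ih1
      have z3 : Ex μ (r N * X ^ 3) = 0 := Ex_r_mul h N _ (pow_mem ih1 3)
      have hx2 : 0 ≤ Ex μ (X ^ 2) := by
        rw [sq, ← ip_eq_Ex]; exact ip_self_nonneg μ _
      rw [e2, e4]
      simp only [map_add, map_smul, z1, z3, Ex_one, smul_eq_mul, mul_zero, add_zero, mul_one]
      nlinarith [sq_nonneg (c N), sq_nonneg (c N ^ 2)]
  have := (key N).2
  rw [← hg'] at this
  rw [Ex_apply, sq g, ← ip_eq_Ex] at this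
  exact this

end H13.Dbl
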