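import Mathlib

set_option autoImplicit false

open MeasureTheory Finset
open scoped ENNReal

namespace H13.Dbl

theorem pow4_real (a b : ℝ) (ha : 0 ≤ a) (hb : 0 ≤ b) :
    (a + b) ^ 4 ≤ 125 * a ^ 4 + (125 / 64) * b ^ 4 := by
  have h : 125 * a ^ 4 + (125 / 64) * b ^ 4 - (a + b) ^ 4 =
      (b - 4 * a) ^ 2 * ((61 / 64) * b ^ 2 + (29 / 8) * (a * b) + (31 / 4) * a ^ 2) := by ring
  have h2 : 0 ≤ (b - 4 * a) ^ 2 * ((61 / 64) * b ^ 2 + (29 / 8) * (a * b) + (31 / 4) * a ^ 2) := by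
    positivity
  linarith

theorem pow4_split (a b : ℝ≥0∞) : (a + b) ^ 4 ≤ 125 * a ^ 4 + (125 / 64) * b ^ 4 := by
  rcases eq_or_ne a ⊤ with rfl | ha
  · simp
  rcases eq_or_ne b ⊤ with rfl | hb
  · simp only [ENNReal.top_pow (by norm_num : (4 : ℕ) ≠ 0)]
    rw [ENNReal.mul_top]
    · simp
    · simp
  have e1 : (a + b) ^ 4 = ENNReal.ofReal ((a.toReal + b.toReal) ^ 4) := by
    rw [ENNReal.ofReal_pow (by positivity), ENNReal.ofReal_add (by positivity) (by positivity),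
      ENNReal.ofReal_toReal ha, ENNReal.ofReal_toReal hb]
  have e2 : 125 * a ^ 4 + (125 / 64) * b ^ 4 =
      ENNReal.ofReal (125 * a.toReal ^ 4 + (125 / 64) * b.toReal ^ 4) := by
    rw [ENNReal.ofReal_add (by positivity) (by positivity), ENNReal.ofReal_mul (by positivity),
      ENNReal.ofReal_mul (by positivity), ENNReal.ofReal_pow (by positivity),
      ENNReal.ofReal_pow (by positivity), ENNReal.ofReal_toReal ha, ENNReal.ofReal_toReal hb,
      ENNReal.ofReal_div_of_pos (by norm_num)]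
    norm_num
  rw [e1, e2]
  exact ENNReal.ofReal_le_ofReal (pow4_real _ _ ENNReal.toReal_nonneg ENNReal.toReal_nonneg)

theorem split_point (β : ℕ → ℝ≥0∞) (a b : ℕ) (hab : a < b)
    :
    ∃ p, a ≤ p ∧ p < b ∧ ∑ k ∈ Ico a p, β k ≤ (∑ k ∈ Ico a b, β k) / 2 ∧
      ∑ k ∈ Ico (p + 1) b, β k ≤ (∑ k ∈ Ico a b, β k) / 2 := by
  classical
  set G := ∑ k ∈ Ico a b, β k with hG
  set P : ℕ → Prop := fun p => a ≤ p ∧ ∑ k ∈ Ico a p, β k ≤ G / 2 with hP
  have h0 : P a := ⟨le_rfl, by simp⟩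
  set p := Nat.findGreatest P (b - 1) with hp
  have hpP : P p := Nat.findGreatest_spec (m := a) (by omega) h0
  have hple : p ≤ b - 1 := Nat.findGreatest_le _
  refine ⟨p, hpP.1, by omega, hpP.2, ?_⟩
  rcases Nat.lt_or_ge p (b - 1) with hlt | hge
  · have hnot : ¬ P (p + 1) := Nat.findGreatest_is_greatest (P := P) (n := b - 1) (by omega) (by omega)
    have hgt : G / 2 < ∑ k ∈ Ico a (p + 1), β k := by
      by_contra hcon
      exact hnot ⟨by have := hpP.1; omega, not_lt.mp hcon⟩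
    have hsum : ∑ k ∈ Ico a (p + 1), β k + ∑ k ∈ Ico (p + 1) b, β k = G :=
      Finset.sum_Ico_consecutive _ (by have := hpP.1; omega) (by omega)
    by_contra hcon
    rw [not_le] at hcon
    have : G / 2 + G / 2 < ∑ k ∈ Ico a (p + 1), β k + ∑ k ∈ Ico (p + 1) b, β k :=
      ENNReal.add_lt_add hgt hcon
    rw [hsum, ENNReal.add_halves] at this
    exact lt_irrefl _ this
  · have : p + 1 = b := by omega
    rw [this]
    simp

variable {Ω : Type*} [MeasurableSpace Ω] {μ : Measure Ω}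

theorem measurable_max (Z : ℕ → ℕ → Ω → ℝ≥0∞) (hZ : ∀ a b, Measurable (Z a b)) (a b : ℕ) :
    Measurable (fun ω => ⨆ m ∈ Finset.Icc a b, Z a m ω) :=
  Measurable.biSup (↑(Finset.Icc a b) : Set ℕ) (Finset.countable_toSet _) fun m _ => hZ a m

theorem iSup_pow4 (f : ℕ → ℝ≥0∞) : (⨆ n, f n) ^ 4 = ⨆ n, (f n) ^ 4 :=
  Monotone.map_iSup_of_continuousAt (f := fun x : ℝ≥0∞ => x ^ 4)
    (ENNReal.continuous_pow 4).continuousAt (fun _ _ h => pow_le_pow_left' h 4) (by simp)

theorem maximal (Z : ℕ → ℕ → Ω → ℝ≥0∞) (hZ : ∀ a b, Measurable (Z a b))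
    (hsub : ∀ a b c, a ≤ b → b ≤ c → ∀ ω, Z a c ω ≤ Z a b ω + Z b c ω)
    (β : ℕ → ℝ≥0∞) (C : ℝ≥0∞) (hC : C ≠ 0)
    (hmom : ∀ a b, a ≤ b → ∫⁻ ω, Z a b ω ^ 4 ∂μ ≤ C * (∑ k ∈ Ico a b, β k) ^ 2) :
    ∀ n a b, a ≤ b → b - a ≤ n →
      ∫⁻ ω, (⨆ m ∈ Finset.Icc a b, Z a m ω) ^ 4 ∂μ ≤ 6000 * C * (∑ k ∈ Ico a b, β k) ^ 2 := by
  intro n
  induction n with
  | zero =>
    intro a b hab hn
    have : b = a := by omega
    subst this
    simp only [Icc_self, mem_singleton, iSup_iSup_eq_left]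
    refine (hmom b b le_rfl).trans ?_
    gcongr
    exact le_mul_of_one_le_left (by positivity) (by norm_num)
  | succ n ih =>
    intro a b hab hn
    rcases Nat.eq_or_lt_of_le hab with rfl | hlt
    · exact ih a a le_rfl (by omega)
    set G := ∑ k ∈ Ico a b, β k with hG
    rcases eq_or_ne G ⊤ with htop | hfin
    · rw [htop, ENNReal.top_pow (by norm_num), ENNReal.mul_top]
      · exact le_top
      · exact mul_ne_zero (by norm_num) hC
    obtain ⟨p, hap, hpb, h1, h2⟩ := split_point β a b hlt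
    have ih1 := ih a p hap (by omega)
    have ih2 := ih (p + 1) b (by omega) (by omega)
    have hpt : ∀ ω, (⨆ m ∈ Finset.Icc a b, Z a m ω) ^ 4 ≤
        125 * (Z a (p + 1) ω) ^ 4 + (125 / 64) * ((⨆ m ∈ Finset.Icc a p, Z a m ω) ^ 4 +
          (⨆ m ∈ Finset.Icc (p + 1) b, Z (p + 1) m ω) ^ 4) := by
      intro ω
      set A := ⨆ m ∈ Finset.Icc a p, Z a m ω with hA
      set B := ⨆ m ∈ Finset.Icc (p + 1) b, Z (p + 1) m ω with hB
      have hmax : (⨆ m ∈ Finset.Icc a b, Z a m ω) ≤ max A (Z a (p + 1) ω + B) := by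
        refine iSup₂_le fun m hm => ?_
        rw [Finset.mem_Icc] at hm
        rcases Nat.lt_or_ge p m with hpm | hpm
        · refine le_max_of_le_right ((hsub a (p + 1) m (by omega) hpm ω).trans ?_)
          gcongr
          exact le_iSup₂_of_le m (Finset.mem_Icc.mpr ⟨hpm, hm.2⟩) le_rfl
        · exact le_max_of_le_left (le_iSup₂_of_le m (Finset.mem_Icc.mpr ⟨hm.1, hpm⟩) le_rfl)
      have hmono : (⨆ m ∈ Finset.Icc a b, Z a m ω) ^ 4 ≤ (max A (Z a (p + 1) ω + B)) ^ 4 := by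
        gcongr
      refine hmono.trans ?_
      rcases le_total A (Z a (p + 1) ω + B) with h | h
      · rw [max_eq_right h]
        refine (pow4_split _ _).trans ?_
        gcongr
        exact le_add_self
      · rw [max_eq_left h]
        calc A ^ 4 = 1 * A ^ 4 := by rw [one_mul]
          _ ≤ (125 / 64) * (A ^ 4 + B ^ 4) := by
              gcongr
              · rw [ENNReal.le_div_iff_mul_le (by norm_num) (by norm_num)]
                norm_num
              · exact le_self_add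
          _ ≤ _ := le_add_self
    have hm1 : Measurable fun ω => (Z a (p + 1) ω) ^ 4 := (hZ _ _).pow_const 4
    have hm2 : Measurable fun ω => (⨆ m ∈ Finset.Icc a p, Z a m ω) ^ 4 :=
      (measurable_max Z hZ a p).pow_const 4
    have hm3 : Measurable fun ω => (⨆ m ∈ Finset.Icc (p + 1) b, Z (p + 1) m ω) ^ 4 :=
      (measurable_max Z hZ (p + 1) b).pow_const 4
    have hz : ∫⁻ ω, Z a (p + 1) ω ^ 4 ∂μ ≤ C * G ^ 2 := by
      refine (hmom a (p + 1) (by omega)).trans ?_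
      gcongr
      rw [hG]
      exact Finset.sum_le_sum_of_subset (Finset.Ico_subset_Ico le_rfl (by omega))
    calc ∫⁻ ω, (⨆ m ∈ Finset.Icc a b, Z a m ω) ^ 4 ∂μ
        ≤ ∫⁻ ω, (125 * (Z a (p + 1) ω) ^ 4 + (125 / 64) * ((⨆ m ∈ Finset.Icc a p, Z a m ω) ^ 4 +
          (⨆ m ∈ Finset.Icc (p + 1) b, Z (p + 1) m ω) ^ 4)) ∂μ := lintegral_mono hpt
      _ = 125 * ∫⁻ ω, (Z a (p + 1) ω) ^ 4 ∂μ + (125 / 64) *
          (∫⁻ ω, (⨆ m ∈ Finset.Icc a p, Z a m ω) ^ 4 ∂μ +
            ∫⁻ ω, (⨆ m ∈ Finset.Icc (p + 1) b, Z (p + 1) m ω) ^ 4 ∂μ) := by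
          rw [lintegral_add_left (hm1.const_mul 125), lintegral_const_mul _ hm1]
          have hm23 : Measurable fun ω => (⨆ m ∈ Finset.Icc a p, Z a m ω) ^ 4 +
            (⨆ m ∈ Finset.Icc (p + 1) b, Z (p + 1) m ω) ^ 4 := hm2.add hm3
          rw [lintegral_const_mul _ hm23, lintegral_add_left hm2]
      _ ≤ 125 * (C * G ^ 2) + (125 / 64) * (6000 * C * (G / 2) ^ 2 + 6000 * C * (G / 2) ^ 2) := by
          gcongr
          · exact ih1.trans (by gcongr)
          · exact ih2.trans (by gcongr)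
      _ ≤ 6000 * C * G ^ 2 := by
          have e : (G / 2) ^ 2 = G ^ 2 * (1 / 4) := by
            rw [ENNReal.div_eq_inv_mul, mul_pow, mul_comm, one_div]
            congr 1
            rw [← ENNReal.inv_pow]
            norm_num
          rw [e]
          calc 125 * (C * G ^ 2) + (125 / 64) * (6000 * C * (G ^ 2 * (1 / 4)) +
                6000 * C * (G ^ 2 * (1 / 4)))
              = (125 + (125 / 64) * (6000 * (1 / 4) + 6000 * (1 / 4))) * (C * G ^ 2) := by ring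
            _ ≤ 6000 * (C * G ^ 2) := by
                gcongr
                have : (125 : ℝ≥0∞) + (125 / 64) * (6000 * (1 / 4) + 6000 * (1 / 4)) =
                    ENNReal.ofReal (125 + (125 / 64) * (6000 * (1 / 4) + 6000 * (1 / 4))) := by
                  rw [ENNReal.ofReal_add (by norm_num) (by norm_num),
                    ENNReal.ofReal_mul (by norm_num), ENNReal.ofReal_add (by norm_num) (by norm_num),
                    ENNReal.ofReal_mul (by norm_num), ENNReal.ofReal_div_of_pos (by norm_num),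
                    ENNReal.ofReal_div_of_pos (by norm_num)]
                  norm_num
                rw [this]
                rw [show (6000 : ℝ≥0∞) = ENNReal.ofReal 6000 by norm_num]
                exact ENNReal.ofReal_le_ofReal (by norm_num)
            _ = 6000 * C * G ^ 2 := by ring

theorem maximal_iSup (Z : ℕ → ℕ → Ω → ℝ≥0∞) (hZ : ∀ a b, Measurable (Z a b))
    (hsub : ∀ a b c, a ≤ b → b ≤ c → ∀ ω, Z a c ω ≤ Z a b ω + Z b c ω)
    (β : ℕ → ℝ≥0∞) (C : ℝ≥0∞) (hC : C ≠ 0)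
    (hmom : ∀ a b, a ≤ b → ∫⁻ ω, Z a b ω ^ 4 ∂μ ≤ C * (∑ k ∈ Ico a b, β k) ^ 2) (a : ℕ) :
    ∫⁻ ω, (⨆ m, Z a (a + m) ω) ^ 4 ∂μ ≤ 6000 * C * (∑' k, β (a + k)) ^ 2 := by
  have h1 : ∀ ω, (⨆ m, Z a (a + m) ω) ^ 4 ≤
      ⨆ n : ℕ, (⨆ m ∈ Finset.Icc a (a + n), Z a m ω) ^ 4 := by
    intro ω
    rw [← iSup_pow4]
    gcongr with m
    exact le_iSup₂_of_le (f := fun i (_ : i ∈ Finset.Icc a (a + m)) => Z a i ω) (a + m)
      (Finset.mem_Icc.mpr ⟨by omega, le_rfl⟩) le_rfl
  refine (lintegral_mono h1).trans ?_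
  rw [lintegral_iSup]
  · refine iSup_le fun n => ?_
    refine (maximal Z hZ hsub β C hC hmom n a (a + n) (by omega) (by omega)).trans ?_
    gcongr
    rw [Finset.sum_Ico_eq_sum_range]
    simp only [Nat.add_sub_cancel_left]
    exact ENNReal.sum_le_tsum _
  · intro n
    exact (measurable_max Z hZ a (a + n)).pow_const 4
  · intro n n' hn ω
    have key : (⨆ m ∈ Finset.Icc a (a + n), Z a m ω) ≤ ⨆ m ∈ Finset.Icc a (a + n'), Z a m ω := by
      refine iSup₂_le fun m hm => ?_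
      have hm' := Finset.mem_Icc.mp hm
      exact le_iSup₂_of_le (f := fun i (_ : i ∈ Finset.Icc a (a + n')) => Z a i ω) m
        (Finset.mem_Icc.mpr ⟨hm'.1, by omega⟩) le_rfl
    exact pow_le_pow_left' key 4

end H13.Dbl
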