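import Mathlib
import Pool.Agent.Results.MP_aa1cf3_an.Defs
import Pool.Agent.H13.Dbl.Maximal

set_option autoImplicit false

open MeasureTheory Finset Filter Topology
open scoped ENNReal

namespace H13.Dbl

open Pool.Agent.Results.MP_aa1cf3_an

theorem conv_of_cauchy (u : ℕ → ℕ → ℝ)
    (h : ∀ ε : ℝ, 0 < ε → ∃ N : ℕ, (∀ b d, N ≤ b → |∑ i ∈ Ico N b, ∑ k ∈ range d, u i k| < ε) ∧
      (∀ b d, N ≤ d → |∑ i ∈ range b, ∑ k ∈ Ico N d, u i k| < ε)) :
    ConvergesRegularly u := by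
  refine ⟨?_, ?_, ?_⟩
  · have hc : CauchySeq (fun p : ℕ × ℕ => partialSum u p.1 p.2) := by
      rw [Metric.cauchySeq_iff']
      intro ε hε
      obtain ⟨N, h1, h2⟩ := h (ε / 2) (by positivity)
      refine ⟨(N, N), fun p hp => ?_⟩
      have hp1 : N ≤ p.1 := hp.1
      have hp2 : N ≤ p.2 := hp.2
      have e : partialSum u p.1 p.2 - partialSum u N N =
          ∑ i ∈ Ico N p.1, ∑ k ∈ range p.2, u i k + ∑ i ∈ range N, ∑ k ∈ Ico N p.2, u i k := by
        unfold partialSum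
        rw [← Finset.sum_range_add_sum_Ico _ hp1]
        have : ∀ i, ∑ k ∈ range p.2, u i k = ∑ k ∈ range N, u i k + ∑ k ∈ Ico N p.2, u i k :=
          fun i => (Finset.sum_range_add_sum_Ico _ hp2).symm
        have e2 : ∑ i ∈ range N, ∑ k ∈ range p.2, u i k =
            ∑ i ∈ range N, ∑ k ∈ range N, u i k + ∑ i ∈ range N, ∑ k ∈ Ico N p.2, u i k := by
          rw [← Finset.sum_add_distrib]
          exact Finset.sum_congr rfl fun i _ => this i
        rw [e2]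
        ring
      rw [Real.dist_eq, e]
      have a1 := h1 p.1 p.2 hp1
      have a2 := h2 N p.2 hp2
      calc _ ≤ |∑ i ∈ Ico N p.1, ∑ k ∈ range p.2, u i k| +
            |∑ i ∈ range N, ∑ k ∈ Ico N p.2, u i k| := abs_add_le _ _
        _ < ε := by linarith
    obtain ⟨s, hs⟩ := cauchySeq_tendsto_of_complete hc
    refine ⟨s, fun ε hε => ?_⟩
    obtain ⟨N, hN⟩ := Metric.tendsto_atTop.mp hs ε hε
    refine ⟨max N.1 N.2, fun m n hmn => ?_⟩
    have := hN (m, n) ⟨by simp only; omega, by simp only; omega⟩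
    rwa [Real.dist_eq] at this
  · intro i
    have hc : CauchySeq (fun n => ∑ k ∈ range n, u i k) := by
      rw [Metric.cauchySeq_iff']
      intro ε hε
      obtain ⟨N, h1, h2⟩ := h (ε / 2) (by positivity)
      refine ⟨N, fun n hn => ?_⟩
      have e : ∑ k ∈ range n, u i k - ∑ k ∈ range N, u i k =
          ∑ i ∈ range (i + 1), ∑ k ∈ Ico N n, u i k - ∑ i ∈ range i, ∑ k ∈ Ico N n, u i k := by
        rw [Finset.sum_range_succ, ← Finset.sum_range_add_sum_Ico _ hn]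
        ring
      rw [Real.dist_eq, e]
      have a1 := h2 (i + 1) n hn
      have a2 := h2 i n hn
      calc _ ≤ |∑ i ∈ range (i + 1), ∑ k ∈ Ico N n, u i k| +
            |∑ i ∈ range i, ∑ k ∈ Ico N n, u i k| := abs_sub _ _
        _ < ε := by linarith
    exact cauchySeq_tendsto_of_complete hc
  · intro k
    have hc : CauchySeq (fun n => ∑ i ∈ range n, u i k) := by
      rw [Metric.cauchySeq_iff']
      intro ε hε
      obtain ⟨N, h1, h2⟩ := h (ε / 2) (by positivity)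
      refine ⟨N, fun n hn => ?_⟩
      have e : ∑ i ∈ range n, u i k - ∑ i ∈ range N, u i k =
          ∑ i ∈ Ico N n, ∑ k ∈ range (k + 1), u i k - ∑ i ∈ Ico N n, ∑ k ∈ range k, u i k := by
        rw [← Finset.sum_range_add_sum_Ico _ hn, ← Finset.sum_sub_distrib]
        simp_rw [Finset.sum_range_succ]
        simp
      rw [Real.dist_eq, e]
      have a1 := h1 n (k + 1) hn
      have a2 := h1 n k hn
      calc _ ≤ |∑ i ∈ Ico N n, ∑ k ∈ range (k + 1), u i k| +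
            |∑ i ∈ Ico N n, ∑ k ∈ range k, u i k| := abs_sub _ _
        _ < ε := by linarith
    exact cauchySeq_tendsto_of_complete hc

variable {Ω : Type*} [MeasurableSpace Ω] {μ : Measure Ω}

/-- rectangular block sums. -/
def S (Y : ℕ → ℕ → Ω → ℝ) (a b c d : ℕ) (ω : Ω) : ℝ := ∑ i ∈ Ico a b, ∑ k ∈ Ico c d, Y i k ω

theorem measurable_S (Y : ℕ → ℕ → Ω → ℝ) (hY : ∀ i k, Measurable (Y i k)) (a b c d : ℕ) :
    Measurable (S Y a b c d) := by
  unfold S
  fun_prop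

/-- the maximal function of the rectangles with lower left corner `(a, c)`. -/
noncomputable def T (Y : ℕ → ℕ → Ω → ℝ) (a c : ℕ) (ω : Ω) : ℝ≥0∞ :=
  ⨆ n : ℕ, ⨆ m : ℕ, ‖S Y a (a + n) c (c + m) ω‖ₑ

theorem measurable_T (Y : ℕ → ℕ → Ω → ℝ) (hY : ∀ i k, Measurable (Y i k)) (a c : ℕ) :
    Measurable (T Y a c) := by
  unfold T
  exact Measurable.iSup fun n => Measurable.iSup fun m => (measurable_S Y hY _ _ _ _).enorm

theorem T_bound (Y : ℕ → ℕ → Ω → ℝ) (hY : ∀ i k, Measurable (Y i k)) (α : ℕ → ℕ → ℝ≥0∞)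
    (C : ℝ≥0∞) (hC : C ≠ 0)
    (hmom : ∀ a b c d, a ≤ b → c ≤ d → ∫⁻ ω, ‖S Y a b c d ω‖ₑ ^ 4 ∂μ ≤
      C * (∑ i ∈ Ico a b, ∑ k ∈ Ico c d, α i k) ^ 2) (a c : ℕ) :
    ∫⁻ ω, T Y a c ω ^ 4 ∂μ ≤ 6000 * (6000 * C) * (∑' i, ∑' k, α (a + i) (c + k)) ^ 2 := by
  have h1 : ∀ a b : ℕ, a ≤ b → ∫⁻ ω, (⨆ m, ‖S Y a b c (c + m) ω‖ₑ) ^ 4 ∂μ ≤
      6000 * C * (∑ i ∈ Ico a b, ∑' k, α i (c + k)) ^ 2 := by
    intro a b hab
    have := maximal_iSup (μ := μ) (fun c d ω => ‖S Y a b c d ω‖ₑ)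
      (fun c d => (measurable_S Y hY _ _ _ _).enorm) ?_ (fun k => ∑ i ∈ Ico a b, α i k) C hC ?_ c
    · refine this.trans (le_of_eq ?_)
      congr 2
      exact Summable.tsum_finsetSum fun i _ => ENNReal.summable
    · intro c1 c2 c3 h12 h23 ω
      refine le_trans (le_of_eq ?_) (enorm_add_le _ _)
      congr 1
      unfold S
      rw [← Finset.sum_add_distrib]
      exact Finset.sum_congr rfl fun i _ => (Finset.sum_Ico_consecutive _ h12 h23).symm
    · intro c d hcd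
      refine (hmom a b c d hab hcd).trans (le_of_eq ?_)
      congr 2
      exact Finset.sum_comm
  have := maximal_iSup (μ := μ) (fun a b ω => ⨆ m, ‖S Y a b c (c + m) ω‖ₑ)
    (fun a b => Measurable.iSup fun m => (measurable_S Y hY _ _ _ _).enorm) ?_
    (fun i => ∑' k, α i (c + k)) (6000 * C) (mul_ne_zero (by norm_num) hC) h1 a
  · exact this
  · intro a1 a2 a3 h12 h23 ω
    refine iSup_le fun m => ?_
    calc ‖S Y a1 a3 c (c + m) ω‖ₑ ≤ ‖S Y a1 a2 c (c + m) ω‖ₑ + ‖S Y a2 a3 c (c + m) ω‖ₑ := by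
          refine le_trans (le_of_eq ?_) (enorm_add_le _ _)
          congr 1
          unfold S
          exact (Finset.sum_Ico_consecutive _ h12 h23).symm
      _ ≤ _ := add_le_add (le_iSup (fun m => ‖S Y a1 a2 c (c + m) ω‖ₑ) m)
          (le_iSup (fun m => ‖S Y a2 a3 c (c + m) ω‖ₑ) m)

theorem double_conv (Y : ℕ → ℕ → Ω → ℝ) (hY : ∀ i k, Measurable (Y i k)) (α : ℕ → ℕ → ℝ≥0∞)
    (hα : ∑' i, ∑' k, α i k ≠ ⊤) (C : ℝ≥0∞) (hC : C ≠ 0) (hCt : C ≠ ⊤)
    (hmom : ∀ a b c d, a ≤ b → c ≤ d → ∫⁻ ω, ‖S Y a b c d ω‖ₑ ^ 4 ∂μ ≤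
      C * (∑ i ∈ Ico a b, ∑ k ∈ Ico c d, α i k) ^ 2) :
    ∀ᵐ ω ∂μ, ConvergesRegularly (fun i k => Y i k ω) := by
  set K : ℝ≥0∞ := 6000 * (6000 * C) with hK
  have hKt : K ≠ ⊤ := ENNReal.mul_ne_top (by norm_num) (ENNReal.mul_ne_top (by norm_num) hCt)
  have g1 : Tendsto (fun N => ∑' i, ∑' k, α (N + i) (0 + k)) atTop (𝓝 0) := by
    have := ENNReal.tendsto_sum_nat_add (fun i => ∑' k, α i k) hα
    refine this.congr fun N => ?_
    congr 1
    ext i
    rw [add_comm]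
    simp
  have g2 : Tendsto (fun N => ∑' i, ∑' k, α (0 + i) (N + k)) atTop (𝓝 0) := by
    have hα' : ∑' k, ∑' i, α i k ≠ ⊤ := by rwa [ENNReal.tsum_comm]
    have := ENNReal.tendsto_sum_nat_add (fun k => ∑' i, α i k) hα'
    refine this.congr fun N => ?_
    rw [ENNReal.tsum_comm]
    simp only [zero_add]
    exact tsum_congr fun i => tsum_congr fun k => by rw [add_comm]
  set U : ℕ → Ω → ℝ≥0∞ := fun N ω => T Y N 0 ω ^ 4 + T Y 0 N ω ^ 4 with hU
  have hUm : ∀ N, Measurable (U N) := fun N =>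
    ((measurable_T Y hY _ _).pow_const 4).add ((measurable_T Y hY _ _).pow_const 4)
  have hUb : ∀ N, ∫⁻ ω, U N ω ∂μ ≤ K * (∑' i, ∑' k, α (N + i) (0 + k)) ^ 2 +
      K * (∑' i, ∑' k, α (0 + i) (N + k)) ^ 2 := by
    intro N
    rw [hU]
    simp only
    rw [lintegral_add_left ((measurable_T Y hY _ _).pow_const 4)]
    exact add_le_add (T_bound Y hY α C hC hmom N 0) (T_bound Y hY α C hC hmom 0 N)
  have hlim : Tendsto (fun N => K * (∑' i, ∑' k, α (N + i) (0 + k)) ^ 2 +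
      K * (∑' i, ∑' k, α (0 + i) (N + k)) ^ 2) atTop (𝓝 0) := by
    have a1 : Tendsto (fun N => K * (∑' i, ∑' k, α (N + i) (0 + k)) ^ 2) atTop (𝓝 (K * 0 ^ 2)) :=
      ENNReal.Tendsto.const_mul (ENNReal.Tendsto.pow g1) (Or.inr hKt)
    have a2 : Tendsto (fun N => K * (∑' i, ∑' k, α (0 + i) (N + k)) ^ 2) atTop (𝓝 (K * 0 ^ 2)) :=
      ENNReal.Tendsto.const_mul (ENNReal.Tendsto.pow g2) (Or.inr hKt)
    simpa using a1.add a2
  have hint : ∫⁻ ω, ⨅ N, U N ω ∂μ = 0 := by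
    refine le_antisymm ?_ bot_le
    refine ge_of_tendsto' hlim fun N => ?_
    exact (lintegral_mono fun ω => iInf_le _ N).trans (hUb N)
  have hae : ∀ᵐ ω ∂μ, ⨅ N, U N ω = 0 := by
    have := (lintegral_eq_zero_iff (Measurable.iInf hUm)).mp hint
    filter_upwards [this] with ω hω
    exact hω
  filter_upwards [hae] with ω hω
  apply conv_of_cauchy
  intro ε hε
  have hpos : (0 : ℝ≥0∞) < ENNReal.ofReal ε ^ 4 := by
    apply pos_of_ne_zero
    apply pow_ne_zero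
    simpa using hε
  rw [← hω, iInf_lt_iff] at hpos
  obtain ⟨N, hN⟩ := hpos
  have hT1 : T Y N 0 ω < ENNReal.ofReal ε :=
    lt_of_pow_lt_pow_left' 4 (lt_of_le_of_lt le_self_add hN)
  have hT2 : T Y 0 N ω < ENNReal.ofReal ε :=
    lt_of_pow_lt_pow_left' 4 (lt_of_le_of_lt le_add_self hN)
  have conv : ∀ x : ℝ, ‖x‖ₑ < ENNReal.ofReal ε → |x| < ε := by
    intro x hx
    rw [Real.enorm_eq_ofReal_abs] at hx
    exact (ENNReal.ofReal_lt_ofReal_iff hε).mp hx
  refine ⟨N, fun b d hb => ?_, fun b d hd => ?_⟩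
  · apply conv
    refine lt_of_le_of_lt ?_ hT1
    refine le_iSup_of_le (b - N) (le_iSup_of_le d ?_)
    unfold S
    rw [Nat.add_sub_cancel' hb, zero_add, Finset.range_eq_Ico]
  · apply conv
    refine lt_of_le_of_lt ?_ hT2
    refine le_iSup_of_le b (le_iSup_of_le (d - N) ?_)
    unfold S
    rw [Nat.add_sub_cancel' hd, zero_add, Finset.range_eq_Ico]

end H13.Dbl
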