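import Mathlib
import Pool.Agent.Results.MP_aa1cf3_an.Defs
import Pool.Agent.H13.Dbl.BM
import Pool.Agent.H13.Dbl.Blocks
import Pool.Agent.H13.Dbl.Double

set_option autoImplicit false

open MeasureTheory Finset Filter Topology
open scoped ENNReal

namespace H13.Dbl

open Pool.Agent.Results.MP_aa1cf3_an

theorem seriesConverges_add {u v : ℕ → ℝ} (hu : SeriesConverges u) (hv : SeriesConverges v) :
    SeriesConverges (fun n => u n + v n) := by
  obtain ⟨s, hs⟩ := hu
  obtain ⟨t, ht⟩ := hv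
  refine ⟨s + t, (hs.add ht).congr fun n => ?_⟩
  rw [Finset.sum_add_distrib]

theorem convergesRegularly_add {u v : ℕ → ℕ → ℝ} (hu : ConvergesRegularly u)
    (hv : ConvergesRegularly v) : ConvergesRegularly (fun i k => u i k + v i k) := by
  refine ⟨?_, fun i => seriesConverges_add (hu.2.1 i) (hv.2.1 i),
    fun k => seriesConverges_add (hu.2.2 k) (hv.2.2 k)⟩
  obtain ⟨s, hs⟩ := hu.1
  obtain ⟨t, ht⟩ := hv.1
  refine ⟨s + t, fun ε hε => ?_⟩
  obtain ⟨N, hN⟩ := hs (ε / 2) (by positivity)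
  obtain ⟨M, hM⟩ := ht (ε / 2) (by positivity)
  refine ⟨max N M, fun m n hmn => ?_⟩
  have e : partialSum (fun i k => u i k + v i k) m n - (s + t) =
      (partialSum u m n - s) + (partialSum v m n - t) := by
    unfold partialSum
    simp only [Finset.sum_add_distrib]
    ring
  rw [e]
  have a1 := hN m n (le_trans (le_max_left _ _) hmn)
  have a2 := hM m n (le_trans (le_max_right _ _) hmn)
  calc _ ≤ |partialSum u m n - s| + |partialSum v m n - t| := abs_add_le _ _
    _ < ε := by linarith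

theorem convergesRegularly_diag {v : ℕ → ℝ} (hv : SeriesConverges v) :
    ConvergesRegularly (fun i k => if i = k then v i else 0) := by
  refine ⟨?_, fun i => ?_, fun k => ?_⟩
  · obtain ⟨s, hs⟩ := hv
    refine ⟨s, fun ε hε => ?_⟩
    obtain ⟨N, hN⟩ := Metric.tendsto_atTop.mp hs ε hε
    refine ⟨N, fun m n hmn => ?_⟩
    have e : partialSum (fun i k => if i = k then v i else 0) m n =
        ∑ k ∈ range (min m n), v k := by
      unfold partialSum
      have : ∀ i ∈ range m, ∑ k ∈ range n, (if i = k then v i else 0) =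
          if i ∈ range n then v i else 0 := by
        intro i _
        rw [Finset.sum_ite_eq]
      rw [Finset.sum_congr rfl this, ← Finset.sum_filter]
      congr 1
      ext x
      simp only [Finset.mem_filter, Finset.mem_range]
      omega
    rw [e]
    have := hN (min m n) hmn
    rwa [Real.dist_eq] at this
  · refine ⟨v i, tendsto_atTop_of_eventually_const (i₀ := i + 1) fun n hn => ?_⟩
    rw [Finset.sum_ite_eq, if_pos (Finset.mem_range.mpr (by omega))]
  · refine ⟨v k, tendsto_atTop_of_eventually_const (i₀ := k + 1) fun n hn => ?_⟩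
    rw [Finset.sum_ite_eq' (range n) k v, if_pos (Finset.mem_range.mpr (by omega))]

variable {Ω : Type*} [MeasurableSpace Ω]

/-- The hypotheses on the building blocks: a convergence system `χ` of bounded functions and a
system `r` of functions with an `L⁴`-estimate, which together form a complete orthonormal
system. -/
structure Base (μ : Measure Ω) [IsProbabilityMeasure μ] {ι : Type*} (χ : ℕ → BM Ω)
    (r : ι → BM Ω) : Prop where
  r_le : ∀ i ω, |(r i : Ω → ℝ) ω| ≤ 1
  χχ : ∀ b, ip μ (χ b) (χ b) = 1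
  χχ' : ∀ b c, b ≠ c → ip μ (χ b) (χ c) = 0
  rr : ∀ i, ip μ (r i) (r i) = 1
  rr' : ∀ i j, i ≠ j → ip μ (r i) (r j) = 0
  χr : ∀ b i, ip μ (χ b) (r i) = 0
  complete : ∀ f : Ω → ℝ, MemLp f 2 μ → (∀ b, ∫ ω, f ω * (χ b : Ω → ℝ) ω ∂μ = 0) →
    (∀ i, ∫ ω, f ω * (r i : Ω → ℝ) ω ∂μ = 0) → f =ᵐ[μ] 0
  conv : ∀ d : ℕ → ℝ, Summable (fun b => d b ^ 2) →
    ∀ᵐ ω ∂μ, SeriesConverges (fun b => d b * (χ b : Ω → ℝ) ω)
  L4 : ∀ g ∈ Submodule.span ℝ (Set.range r), ∫ ω, (g : Ω → ℝ) ω ^ 4 ∂μ ≤ 3 * (ip μ g g) ^ 2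

theorem Base.reindex {μ : Measure Ω} [IsProbabilityMeasure μ] {ι κ : Type*} {χ : ℕ → BM Ω}
    {r : ι → BM Ω} (h : Base μ χ r) (e : κ ≃ ι) : Base μ χ (fun k => r (e k)) where
  r_le := fun k => h.r_le (e k)
  χχ := h.χχ
  χχ' := h.χχ'
  rr := fun k => h.rr (e k)
  rr' := fun i j hij => h.rr' _ _ (fun heq => hij (e.injective heq))
  χr := fun b i => h.χr b _
  complete := fun f hf h1 h2 => h.complete f hf h1 fun i => by
    have := h2 (e.symm i)
    rwa [e.apply_symm_apply] at this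
  conv := h.conv
  L4 := fun g hg => h.L4 g (Submodule.span_mono (by rintro _ ⟨k, rfl⟩; exact ⟨e k, rfl⟩) hg)

section construct

variable (k : ℕ → ℕ) (H : (b : ℕ) → Matrix (Fin (k b + 1)) (Fin (k b + 1)) ℝ)

/-- block sizes. -/
def KK (b : ℕ) : ℕ := k b + 1

theorem KK_pos (b : ℕ) : 0 < KK k b := Nat.succ_pos _

/-- the labels of the auxiliary functions. -/
abbrev Lab : Type := {p : ℕ × ℕ // p.1 ≠ p.2} ⊕ (Σ b, Fin (k b))

variable (χ : ℕ → BM Ω) (ρ : Lab k → BM Ω)

/-- the position of `n` in its block. -/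
def pos (n : ℕ) : Fin (k (blk (KK k) n) + 1) :=
  ⟨n - tt (KK k) (blk (KK k) n), by
    have h1 := tt_blk_le (KK k) n
    have h2 := lt_tt_blk_succ (KK k) (KK_pos k) n
    rw [tt_succ] at h2
    unfold KK at h2 ⊢
    omega⟩

/-- auxiliary part. -/
noncomputable def etaB (b : ℕ) (s : Fin (k b + 1)) : BM Ω :=
  ∑ l : Fin (k b), H b s l.succ • ρ (Sum.inr ⟨b, l⟩)

/-- mixed functions. -/
noncomputable def psiB (b : ℕ) (s : Fin (k b + 1)) : BM Ω := H b s 0 • χ b + etaB k H ρ b s

/-- coefficient of `χ`. -/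
noncomputable def xx (n : ℕ) : ℝ := H (blk (KK k) n) (pos k n) 0

/-- auxiliary part of the diagonal functions. -/
noncomputable def eta (n : ℕ) : BM Ω := etaB k H ρ (blk (KK k) n) (pos k n)

/-- the diagonal functions. -/
noncomputable def psi (n : ℕ) : BM Ω := psiB k H χ ρ (blk (KK k) n) (pos k n)

theorem pos_spec (b : ℕ) (s : Fin (k b + 1)) :
    (⟨blk (KK k) (tt (KK k) b + s), pos k (tt (KK k) b + s)⟩ : Σ b, Fin (k b + 1)) = ⟨b, s⟩ := by
  have hb : blk (KK k) (tt (KK k) b + s) = b := by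
    apply blk_eq (KK k) (KK_pos k)
    · omega
    · rw [tt_succ]
      have := s.isLt
      unfold KK
      omega
  apply Sigma.ext hb
  rw [Fin.heq_ext_iff (show k (blk (KK k) (tt (KK k) b + s)) + 1 = k b + 1 by rw [hb])]
  simp only [pos]
  rw [hb]
  omega

theorem psi_eq (b : ℕ) (s : Fin (k b + 1)) :
    psi k H χ ρ (tt (KK k) b + s) = psiB k H χ ρ b s := by
  have := pos_spec k b s
  exact congrArg (fun q : Σ b, Fin (k b + 1) => psiB k H χ ρ q.1 q.2) this

theorem xx_eq (b : ℕ) (s : Fin (k b + 1)) : xx k H (tt (KK k) b + s) = H b s 0 := by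
  have := pos_spec k b s
  exact congrArg (fun q : Σ b, Fin (k b + 1) => H q.1 q.2 0) this

theorem pair_inj (n m : ℕ) (h : (⟨blk (KK k) n, pos k n⟩ : Σ b, Fin (k b + 1)) =
    ⟨blk (KK k) m, pos k m⟩) : n = m := by
  have h1 := tt_blk_le (KK k) n
  have h2 := tt_blk_le (KK k) m
  have e : ∀ n, n = tt (KK k) (blk (KK k) n) + (pos k n : ℕ) := by
    intro n
    have := tt_blk_le (KK k) n
    simp only [pos]
    omega
  rw [e n, e m]
  exact congrArg (fun q : Σ b, Fin (k b + 1) => tt (KK k) q.1 + (q.2 : ℕ)) h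

variable {μ : Measure Ω} [IsProbabilityMeasure μ]

theorem ip_psiB (h : Base μ χ ρ) (hH : ∀ b, H b * (H b).transpose = 1) (b : ℕ)
    (s s' : Fin (k b + 1)) :
    ip μ (psiB k H χ ρ b s) (psiB k H χ ρ b s') = if s = s' then 1 else 0 := by
  have hmat : (H b * (H b).transpose) s s' = H b s 0 * H b s' 0 +
      ∑ l : Fin (k b), H b s l.succ * H b s' l.succ := by
    rw [Matrix.mul_apply, Fin.sum_univ_succ]
    rfl
  rw [hH, Matrix.one_apply] at hmat
  rw [hmat]
  unfold psiB etaB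
  simp only [map_add, map_smul, map_sum, LinearMap.add_apply, LinearMap.smul_apply,
    LinearMap.sum_apply, smul_eq_mul, h.χχ]
  have e1 : ∀ l : Fin (k b), ip μ (χ b) (ρ (Sum.inr ⟨b, l⟩)) = 0 := fun l => h.χr _ _
  have e2 : ∀ l : Fin (k b), ip μ (ρ (Sum.inr ⟨b, l⟩)) (χ b) = 0 := fun l => by
    rw [ip_comm]; exact h.χr _ _
  simp only [e1, e2, mul_zero, Finset.sum_const_zero, add_zero, zero_add]
  rw [mul_one, mul_comm]
  congr 1
  refine Finset.sum_congr rfl fun l _ => ?_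
  rw [Finset.sum_eq_single l]
  · rw [h.rr]; ring
  · intro l' _ hl'
    rw [h.rr', mul_zero]
    intro heq
    apply hl'
    have := Sum.inr_injective heq
    simpa using this
  · simp

theorem ip_psiB_ne (h : Base μ χ ρ) (b b' : ℕ) (hb : b ≠ b')
    (s : Fin (k b + 1)) (s' : Fin (k b' + 1)) :
    ip μ (psiB k H χ ρ b s) (psiB k H χ ρ b' s') = 0 := by
  unfold psiB etaB
  simp only [map_add, map_smul, map_sum, LinearMap.add_apply, LinearMap.smul_apply,
    LinearMap.sum_apply, smul_eq_mul, h.χχ' b b' hb]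
  have e1 : ∀ l : Fin (k b'), ip μ (χ b) (ρ (Sum.inr ⟨b', l⟩)) = 0 := fun l => h.χr _ _
  have e2 : ∀ l : Fin (k b), ip μ (ρ (Sum.inr ⟨b, l⟩)) (χ b') = 0 := fun l => by
    rw [ip_comm]; exact h.χr _ _
  have e3 : ∀ (l : Fin (k b)) (l' : Fin (k b')),
      ip μ (ρ (Sum.inr ⟨b, l⟩)) (ρ (Sum.inr ⟨b', l'⟩)) = 0 := by
    intro l l'
    apply h.rr'
    intro heq
    apply hb
    exact congrArg Sigma.fst (Sum.inr_injective heq)
  simp only [e1, e2, e3, mul_zero, Finset.sum_const_zero, add_zero]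

theorem ip_psi (h : Base μ χ ρ) (hH : ∀ b, H b * (H b).transpose = 1) (n m : ℕ) :
    ip μ (psi k H χ ρ n) (psi k H χ ρ m) = if n = m then 1 else 0 := by
  by_cases hnm : n = m
  · subst hnm
    rw [if_pos rfl]
    unfold psi
    rw [ip_psiB k H χ ρ h hH, if_pos rfl]
  · rw [if_neg hnm]
    unfold psi
    by_cases hb : blk (KK k) n = blk (KK k) m
    · have key : ∀ (q q' : Σ b, Fin (k b + 1)), q.1 = q'.1 → q ≠ q' →
          ip μ (psiB k H χ ρ q.1 q.2) (psiB k H χ ρ q'.1 q'.2) = 0 := by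
        rintro ⟨b, s⟩ ⟨b', s'⟩ (hbb : b = b') hne
        subst hbb
        rw [ip_psiB k H χ ρ h hH, if_neg]
        rintro rfl
        exact hne rfl
      exact key ⟨_, pos k n⟩ ⟨_, pos k m⟩ hb fun heq => hnm (pair_inj k n m heq)
    · exact ip_psiB_ne k H χ ρ h _ _ hb _ _

/-- the double system. -/
noncomputable def Phi (i j : ℕ) : BM Ω :=
  if h : i = j then psi k H χ ρ i else ρ (Sum.inl ⟨(i, j), h⟩)

/-- its auxiliary part. -/
noncomputable def Eta (i j : ℕ) : BM Ω :=
  if h : i = j then eta k H ρ i else ρ (Sum.inl ⟨(i, j), h⟩)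

theorem ip_psi_inl (h : Base μ χ ρ) (n : ℕ) (p : {p : ℕ × ℕ // p.1 ≠ p.2}) :
    ip μ (psi k H χ ρ n) (ρ (Sum.inl p)) = 0 := by
  unfold psi psiB etaB
  simp only [map_add, map_smul, map_sum, LinearMap.add_apply, LinearMap.smul_apply,
    LinearMap.sum_apply, smul_eq_mul, h.χr]
  have : ∀ l : Fin (k (blk (KK k) n)),
      ip μ (ρ (Sum.inr ⟨blk (KK k) n, l⟩)) (ρ (Sum.inl p)) = 0 := fun l =>
    h.rr' _ _ (by simp)
  simp [this]

theorem ip_Phi (h : Base μ χ ρ) (hH : ∀ b, H b * (H b).transpose = 1) (p q : ℕ × ℕ) :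
    ip μ (Phi k H χ ρ p.1 p.2) (Phi k H χ ρ q.1 q.2) = if p = q then 1 else 0 := by
  obtain ⟨i, j⟩ := p
  obtain ⟨i', j'⟩ := q
  unfold Phi
  simp only
  by_cases h1 : i = j
  · subst h1
    by_cases h2 : i' = j'
    · subst h2
      rw [dif_pos rfl, dif_pos rfl, ip_psi k H χ ρ h hH]
      by_cases h3 : i = i'
      · subst h3; simp
      · rw [if_neg h3, if_neg (by simp [h3])]
    · rw [dif_pos rfl, dif_neg h2, ip_psi_inl k H χ ρ h, if_neg]
      intro heq
      simp only [Prod.mk.injEq] at heq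
      exact h2 (heq.1.symm.trans heq.2)
  · by_cases h2 : i' = j'
    · subst h2
      rw [dif_neg h1, dif_pos rfl, ip_comm, ip_psi_inl k H χ ρ h, if_neg]
      intro heq
      simp only [Prod.mk.injEq] at heq
      exact h1 (heq.1.trans heq.2.symm)
    · rw [dif_neg h1, dif_neg h2]
      by_cases h3 : (i, j) = (i', j')
      · simp only [Prod.mk.injEq] at h3
        obtain ⟨rfl, rfl⟩ := h3
        rw [h.rr, if_pos rfl]
      · rw [if_neg h3]
        apply h.rr'
        intro heq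
        apply h3
        have := Sum.inl_injective heq
        exact congrArg Subtype.val this

end construct

end H13.Dbl
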