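import Mathlib
import Pool.Agent.H13.Dbl.System

set_option autoImplicit false

open MeasureTheory Finset Filter Topology
open scoped ENNReal

namespace H13.Dbl

open Pool.Agent.Results.MP_aa1cf3_an

variable {Ω : Type*} [MeasurableSpace Ω]

section construct

variable (k : ℕ → ℕ) (H : (b : ℕ) → Matrix (Fin (k b + 1)) (Fin (k b + 1)) ℝ)
variable (χ : ℕ → BM Ω) (ρ : Lab k → BM Ω)
variable {μ : Measure Ω} [IsProbabilityMeasure μ]

theorem Phi_bound (h : Base μ χ ρ) (h1 : ∀ b s ω, |H b s 0| * |(χ b : Ω → ℝ) ω| ≤ 1)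
    (h2 : ∀ b s, ∑ l : Fin (k b), |H b s l.succ| ≤ 3) (i j : ℕ) (ω : Ω) :
    |(Phi k H χ ρ i j : Ω → ℝ) ω| ≤ 4 := by
  unfold Phi
  split_ifs with hij
  · unfold psi psiB etaB
    rw [Subalgebra.coe_add, Pi.add_apply, Subalgebra.coe_smul, Pi.smul_apply, smul_eq_mul,
      AddSubmonoidClass.coe_finsetSum, Finset.sum_apply]
    refine (abs_add_le _ _).trans ?_
    rw [abs_mul]
    have a1 := h1 _ (pos k i) ω
    have a2 : |∑ l : Fin (k (blk (KK k) i)), ((H (blk (KK k) i) (pos k i) l.succ •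
        ρ (Sum.inr ⟨blk (KK k) i, l⟩) : BM Ω) : Ω → ℝ) ω| ≤ 3 := by
      refine (Finset.abs_sum_le_sum_abs _ _).trans (le_trans (Finset.sum_le_sum fun l _ => ?_)
        (h2 _ (pos k i)))
      rw [Subalgebra.coe_smul, Pi.smul_apply, smul_eq_mul, abs_mul]
      exact mul_le_of_le_one_right (abs_nonneg _) (h.r_le _ _)
    linarith
  · exact (h.r_le _ _).trans (by norm_num)

theorem Phi_complete (h : Base μ χ ρ) (hH : ∀ b, H b * (H b).transpose = 1) (f : Ω → ℝ)
    (hf : MemLp f 2 μ) (h0 : ∀ i j, ∫ ω, f ω * (Phi k H χ ρ i j : Ω → ℝ) ω ∂μ = 0) :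
    f =ᵐ[μ] 0 := by
  have hfi : Integrable f μ := hf.integrable (by norm_num)
  set L := pair μ f hfi with hL
  have hLa : ∀ g : BM Ω, L g = ∫ ω, f ω * (g : Ω → ℝ) ω ∂μ := fun g => rfl
  have hdiag : ∀ n, L (psi k H χ ρ n) = 0 := by
    intro n
    have := h0 n n
    unfold Phi at this
    rw [dif_pos rfl] at this
    exact this
  have hoff : ∀ p : {p : ℕ × ℕ // p.1 ≠ p.2}, L (ρ (Sum.inl p)) = 0 := by
    rintro ⟨⟨i, j⟩, hij⟩
    have := h0 i j
    unfold Phi at this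
    rw [dif_neg hij] at this
    exact this
  have hblock : ∀ b, ∀ l, (Fin.cons (L (χ b)) (fun l : Fin (k b) => L (ρ (Sum.inr ⟨b, l⟩))) :
      Fin (k b + 1) → ℝ) l = 0 := by
    intro b
    set v : Fin (k b + 1) → ℝ := Fin.cons (L (χ b)) (fun l : Fin (k b) => L (ρ (Sum.inr ⟨b, l⟩)))
      with hv
    have hmv : (H b).mulVec v = 0 := by
      ext s
      have := hdiag (tt (KK k) b + s)
      rw [psi_eq] at this
      unfold psiB etaB at this
      rw [map_add, map_smul, map_sum] at this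
      rw [Matrix.mulVec, dotProduct, Fin.sum_univ_succ, Pi.zero_apply, ← this]
      simp [hv, smul_eq_mul]
    have hH' : (H b).transpose * H b = 1 := by
      exact mul_eq_one_comm.mp (hH b)
    have : v = 0 := by
      have := congrArg (fun w => (H b).transpose.mulVec w) hmv
      simp only [Matrix.mulVec_mulVec, hH', Matrix.one_mulVec, Matrix.mulVec_zero] at this
      exact this
    intro l
    rw [this]
    rfl
  refine h.complete f hf (fun b => ?_) ?_
  · exact hblock b 0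
  · rintro (p | ⟨b, l⟩)
    · exact hoff p
    · have := hblock b l.succ
      rw [Fin.cons_succ] at this
      exact this

theorem xx_sum (hH : ∀ b, H b * (H b).transpose = 1) (b : ℕ) :
    ∑ m ∈ Ico (tt (KK k) b) (tt (KK k) (b + 1)), xx k H m ^ 2 = 1 := by
  have hH' : (H b).transpose * H b = 1 := by
    exact mul_eq_one_comm.mp (hH b)
  have h00 : ((H b).transpose * H b) 0 0 = 1 := by rw [hH', Matrix.one_apply_eq]
  rw [Matrix.mul_apply] at h00
  rw [Finset.sum_Ico_eq_sum_range, tt_succ, Nat.add_sub_cancel_left]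
  unfold KK
  rw [Finset.sum_range]
  rw [← h00]
  refine Finset.sum_congr rfl fun s _ => ?_
  have := xx_eq k H b s
  unfold KK at this
  rw [this, Matrix.transpose_apply, sq]

theorem diag_conv (h : Base μ χ ρ) (hH : ∀ b, H b * (H b).transpose = 1) (c : ℕ → ℝ)
    (hc : Summable fun n => c n ^ 2) :
    ∀ᵐ ω ∂μ, SeriesConverges (fun n => c n * (xx k H n * (χ (blk (KK k) n) : Ω → ℝ) ω)) := by
  set w : ℕ → ℝ := fun b => Real.sqrt (∑ m ∈ Ico (tt (KK k) b) (tt (KK k) (b + 1)), c m ^ 2)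
    with hw
  set d : ℕ → ℝ := fun b => ∑ m ∈ Ico (tt (KK k) b) (tt (KK k) (b + 1)), c m * xx k H m with hd
  have hw2 : ∀ b, w b ^ 2 = ∑ m ∈ Ico (tt (KK k) b) (tt (KK k) (b + 1)), c m ^ 2 := fun b =>
    Real.sq_sqrt (Finset.sum_nonneg fun m _ => sq_nonneg _)
  have hws : Summable fun b => w b ^ 2 := by
    simp_rw [hw2]
    exact summable_blocks _ _ (fun n => sq_nonneg _) hc
  have hpart : ∀ b n, n ≤ tt (KK k) (b + 1) →
      |∑ m ∈ Ico (tt (KK k) b) n, c m * xx k H m| ≤ w b := by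
    intro b n hn
    apply Real.abs_le_sqrt
    refine (Finset.sum_mul_sq_le_sq_mul_sq _ _ _).trans ?_
    have hsub : Ico (tt (KK k) b) n ⊆ Ico (tt (KK k) b) (tt (KK k) (b + 1)) :=
      Finset.Ico_subset_Ico le_rfl hn
    have a1 : ∑ m ∈ Ico (tt (KK k) b) n, c m ^ 2 ≤
        ∑ m ∈ Ico (tt (KK k) b) (tt (KK k) (b + 1)), c m ^ 2 :=
      Finset.sum_le_sum_of_subset_of_nonneg hsub fun _ _ _ => sq_nonneg _
    have a2 : ∑ m ∈ Ico (tt (KK k) b) n, xx k H m ^ 2 ≤ 1 := by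
      rw [← xx_sum k H hH b]
      exact Finset.sum_le_sum_of_subset_of_nonneg hsub fun _ _ _ => sq_nonneg _
    have a3 : 0 ≤ ∑ m ∈ Ico (tt (KK k) b) n, c m ^ 2 := Finset.sum_nonneg fun _ _ => sq_nonneg _
    have a4 : 0 ≤ ∑ m ∈ Ico (tt (KK k) b) n, xx k H m ^ 2 :=
      Finset.sum_nonneg fun _ _ => sq_nonneg _
    nlinarith
  have hds : Summable fun b => d b ^ 2 := by
    refine Summable.of_nonneg_of_le (fun b => sq_nonneg _) (fun b => ?_) hws
    have := hpart b _ le_rfl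
    rw [← sq_abs]
    exact pow_le_pow_left₀ (abs_nonneg _) this 2
  have h1 := h.conv d hds
  have h2 : ∀ᵐ ω ∂μ, Tendsto (fun b => w b * (χ b : Ω → ℝ) ω) atTop (𝓝 0) := by
    refine ae_tendsto_zero _ (fun b => (BM.measurable (χ b)).const_mul _) ?_
    have e : ∀ b, ∫⁻ ω, ‖w b * (χ b : Ω → ℝ) ω‖ₑ ^ 2 ∂μ = ENNReal.ofReal (w b ^ 2) := by
      intro b
      have := lintegral_enorm_pow μ (w b • χ b) 2 (by decide)
      rw [← ip_self_eq] at this
      simp only [map_smul, LinearMap.smul_apply, h.χχ, smul_eq_mul, mul_one] at this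
      rw [← sq] at this
      rw [← this]
      rfl
    simp_rw [e]
    exact hws.tsum_ofReal_ne_top
  filter_upwards [h1, h2] with ω hω1 hω2
  have h3 : Tendsto (fun b => w b * |(χ b : Ω → ℝ) ω|) atTop (𝓝 0) := by
    have := hω2.abs
    rw [abs_zero] at this
    refine this.congr fun b => ?_
    rw [abs_mul, abs_of_nonneg (Real.sqrt_nonneg _)]
  have hblkm : ∀ b n, n ≤ tt (KK k) (b + 1) → ∑ m ∈ Ico (tt (KK k) b) n,
      c m * (xx k H m * (χ (blk (KK k) m) : Ω → ℝ) ω) =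
      (∑ m ∈ Ico (tt (KK k) b) n, c m * xx k H m) * (χ b : Ω → ℝ) ω := by
    intro b n hn
    rw [Finset.sum_mul]
    refine Finset.sum_congr rfl fun m hm => ?_
    rw [Finset.mem_Ico] at hm
    rw [blk_eq (KK k) (KK_pos k) b m hm.1 (by omega), mul_assoc]
  refine conv_blocks (KK k) (KK_pos k) _ ?_ _ h3 ?_
  · have : (fun j => ∑ m ∈ Ico (tt (KK k) j) (tt (KK k) (j + 1)),
        c m * (xx k H m * (χ (blk (KK k) m) : Ω → ℝ) ω)) = fun b => d b * (χ b : Ω → ℝ) ω := by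
      ext b
      exact hblkm b _ le_rfl
    rw [this]
    exact hω1
  · intro b n _ hn
    rw [hblkm b n hn, abs_mul]
    exact mul_le_mul_of_nonneg_right (hpart b n hn) (abs_nonneg _)

/-- the `χ`-part of the system. -/
noncomputable def Xi (i j : ℕ) : BM Ω :=
  if i = j then xx k H i • χ (blk (KK k) i) else 0

theorem Phi_eq (i j : ℕ) : Phi k H χ ρ i j = Xi k H χ i j + Eta k H ρ i j := by
  unfold Phi Xi Eta
  by_cases hij : i = j
  · rw [dif_pos hij, if_pos hij, dif_pos hij]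
    rfl
  · rw [dif_neg hij, if_neg hij, dif_neg hij, zero_add]

theorem Eta_mem (i j : ℕ) : Eta k H ρ i j ∈ Submodule.span ℝ (Set.range ρ) := by
  unfold Eta
  split_ifs with hij
  · unfold eta etaB
    exact Submodule.sum_mem _ fun l _ => Submodule.smul_mem _ _ (Submodule.subset_span ⟨_, rfl⟩)
  · exact Submodule.subset_span ⟨_, rfl⟩

theorem ip_Xi_Eta (h : Base μ χ ρ) (i j i' j' : ℕ) :
    ip μ (Xi k H χ i j) (Eta k H ρ i' j') = 0 := by
  have key : ∀ g ∈ Submodule.span ℝ (Set.range ρ), ∀ b, ip μ (χ b) g = 0 := by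
    intro g hg b
    have hle : Submodule.span ℝ (Set.range ρ) ≤ LinearMap.ker (ip μ (χ b)) := by
      rw [Submodule.span_le]
      rintro _ ⟨i, rfl⟩
      exact h.χr b i
    exact hle hg
  unfold Xi
  split_ifs with hij
  · rw [map_smul, LinearMap.smul_apply, key _ (Eta_mem k H ρ i' j'), smul_zero]
  · simp

theorem eta_conv (h : Base μ χ ρ) (hH : ∀ b, H b * (H b).transpose = 1) (a : ℕ → ℕ → ℝ)
    (ha : Summable fun p : ℕ × ℕ => a p.1 p.2 ^ 2) :
    ∀ᵐ ω ∂μ, ConvergesRegularly (fun i j => a i j * (Eta k H ρ i j : Ω → ℝ) ω) := by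
  refine double_conv (fun i j ω => a i j * (Eta k H ρ i j : Ω → ℝ) ω)
    (fun i j => (BM.measurable _).const_mul _) (fun i j => ENNReal.ofReal (a i j ^ 2)) ?_ 3
    (by norm_num) (by norm_num) ?_
  · have : ∑' p : ℕ × ℕ, ENNReal.ofReal (a p.1 p.2 ^ 2) ≠ ⊤ := ha.tsum_ofReal_ne_top
    rwa [ENNReal.tsum_prod (f := fun i j => ENNReal.ofReal (a i j ^ 2))] at this
  · intro i1 i2 j1 j2 _ _
    set s := Ico i1 i2 ×ˢ Ico j1 j2 with hs
    set P : BM Ω := ∑ p ∈ s, a p.1 p.2 • Phi k H χ ρ p.1 p.2 with hP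
    set X : BM Ω := ∑ p ∈ s, a p.1 p.2 • Xi k H χ p.1 p.2 with hX
    set G : BM Ω := ∑ p ∈ s, a p.1 p.2 • Eta k H ρ p.1 p.2 with hG
    have hPXG : P = X + G := by
      rw [hP, hX, hG, ← Finset.sum_add_distrib]
      refine Finset.sum_congr rfl fun p _ => ?_
      rw [Phi_eq, smul_add]
    have hPP : ip μ P P = ∑ p ∈ s, a p.1 p.2 ^ 2 := by
      rw [hP]
      simp only [map_sum, map_smul, LinearMap.sum_apply, LinearMap.smul_apply, smul_eq_mul,
        ip_Phi k H χ ρ h hH, mul_ite, mul_one, mul_zero]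
      refine Finset.sum_congr rfl fun p hp => ?_
      rw [Finset.sum_ite_eq' s p, if_pos hp, sq]
    have hXG : ip μ X G = 0 := by
      rw [hX, hG]
      simp only [map_sum, map_smul, LinearMap.sum_apply, LinearMap.smul_apply,
        ip_Xi_Eta k H χ ρ h, smul_zero, Finset.sum_const_zero]
    have hGG : ip μ G G ≤ ∑ p ∈ s, a p.1 p.2 ^ 2 := by
      have e : ip μ P P = ip μ X X + ip μ G G := by
        rw [hPXG]
        simp only [map_add, LinearMap.add_apply]
        rw [ip_comm μ G X, hXG]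
        ring
      have := ip_self_nonneg μ X
      linarith
    have hG0 := ip_self_nonneg μ G
    have hG4 := h.L4 G (by
      rw [hG]
      exact Submodule.sum_mem _ fun p _ => Submodule.smul_mem _ _ (Eta_mem k H ρ _ _))
    have hS : ∀ ω, S (fun i j ω => a i j * (Eta k H ρ i j : Ω → ℝ) ω) i1 i2 j1 j2 ω =
        (G : Ω → ℝ) ω := by
      intro ω
      unfold S
      rw [hG, hs, Finset.sum_product, AddSubmonoidClass.coe_finsetSum, Finset.sum_apply]
      refine Finset.sum_congr rfl fun i _ => ?_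
      rw [AddSubmonoidClass.coe_finsetSum, Finset.sum_apply]
      rfl
    simp_rw [hS]
    rw [lintegral_enorm_pow μ G 4 (by decide)]
    have e3 : (3 : ℝ≥0∞) * (∑ i ∈ Ico i1 i2, ∑ j ∈ Ico j1 j2, ENNReal.ofReal (a i j ^ 2)) ^ 2 =
        ENNReal.ofReal (3 * (∑ p ∈ s, a p.1 p.2 ^ 2) ^ 2) := by
      rw [ENNReal.ofReal_mul (by norm_num), ENNReal.ofReal_pow
        (Finset.sum_nonneg fun _ _ => sq_nonneg _),
        ENNReal.ofReal_sum_of_nonneg (fun _ _ => sq_nonneg _), hs, Finset.sum_product]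
      norm_num
    rw [e3]
    apply ENNReal.ofReal_le_ofReal
    refine hG4.trans ?_
    gcongr

theorem Phi_conv (h : Base μ χ ρ) (hH : ∀ b, H b * (H b).transpose = 1) (a : ℕ → ℕ → ℝ)
    (ha : Summable fun p : ℕ × ℕ => a p.1 p.2 ^ 2) :
    ∀ᵐ ω ∂μ, ConvergesRegularly (fun i j => a i j * (Phi k H χ ρ i j : Ω → ℝ) ω) := by
  have hc : Summable fun n => a n n ^ 2 :=
    ha.comp_injective (i := fun n : ℕ => (n, n)) fun n m h => (Prod.mk.inj h).1
  filter_upwards [diag_conv k H χ ρ h hH (fun n => a n n) hc, eta_conv k H χ ρ h hH a ha]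
    with ω h1 h2
  have := convergesRegularly_add (convergesRegularly_diag h1) h2
  convert this using 3 with i j
  rw [Phi_eq, Subalgebra.coe_add, Pi.add_apply, mul_add]
  congr 1
  unfold Xi
  split_ifs with hij
  · subst hij
    rfl
  · simp

end construct

/-- **Theorem A**: from the building blocks to the double system. -/
theorem theoremA {μ : Measure Ω} [IsProbabilityMeasure μ] (χ : ℕ → BM Ω) (r : ℕ → BM Ω)
    (h : Base μ χ r) : ∃ Φ : ℕ → ℕ → BM Ω,
      (∀ p q : ℕ × ℕ, ip μ (Φ p.1 p.2) (Φ q.1 q.2) = if p = q then 1 else 0) ∧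
      (∀ i j ω, |(Φ i j : Ω → ℝ) ω| ≤ 4) ∧
      (∀ f : Ω → ℝ, MemLp f 2 μ → (∀ i j, ∫ ω, f ω * (Φ i j : Ω → ℝ) ω ∂μ = 0) → f =ᵐ[μ] 0) ∧
      ∀ a : ℕ → ℕ → ℝ, Summable (fun p : ℕ × ℕ => a p.1 p.2 ^ 2) →
        ∀ᵐ ω ∂μ, ConvergesRegularly (fun i j => a i j * (Φ i j : Ω → ℝ) ω) := by
  have hmat : ∀ b, ∃ (k : ℕ) (H : Matrix (Fin (k + 1)) (Fin (k + 1)) ℝ),
      H * H.transpose = 1 ∧ (∀ s ω, |H s 0| * |(χ b : Ω → ℝ) ω| ≤ 1) ∧
      ∀ s, ∑ l : Fin k, |H s l.succ| ≤ 3 := by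
    intro b
    obtain ⟨C, hC0, hC⟩ := BM.bound (χ b)
    have hlt : (1 / Real.sqrt 2) < 1 := by
      rw [div_lt_one (by positivity)]
      exact Real.lt_sqrt_of_sq_lt (by norm_num)
    obtain ⟨N, hN⟩ := exists_pow_lt_of_lt_one (show (0 : ℝ) < 1 / (C + 1) by positivity) hlt
    obtain ⟨k, H, h1, h2, h3⟩ := exists_matrix N
    refine ⟨k, H, h1, fun s ω => ?_, h3⟩
    calc |H s 0| * |(χ b : Ω → ℝ) ω| ≤ (1 / (C + 1)) * (C + 1) :=
          mul_le_mul ((h2 s).trans hN.le) ((hC ω).trans (by linarith)) (abs_nonneg _)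
            (by positivity)
      _ = 1 := by field_simp
  choose k H hH h1 h2 using hmat
  have hinf : Infinite (Lab k) := by
    refine Infinite.of_injective (fun n : ℕ => (Sum.inl ⟨(n, n + 1), by simp⟩ : Lab k)) ?_
    intro n m hnm
    have := Sum.inl_injective hnm
    simpa using this
  obtain ⟨e⟩ := nonempty_equiv_of_countable (α := Lab k) (β := ℕ)
  have hB := h.reindex e
  exact ⟨Phi k H χ (fun l => r (e l)), ip_Phi k H χ _ hB hH, Phi_bound k H χ _ hB h1 h2,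
    Phi_complete k H χ _ hB hH, Phi_conv k H χ _ hB hH⟩

end H13.Dbl
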