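import Mathlib
import Pool.Agent.H13.Dbl.Mart
import Pool.Agent.H13.Dbl.TheoremA

set_option autoImplicit false

open MeasureTheory Finset Filter Topology
open scoped ENNReal

namespace H13.Dbl

open Pool.Agent.Results.MP_aa1cf3_an

variable {Ω : Type*} [MeasurableSpace Ω]
variable {μ : Measure Ω} [IsProbabilityMeasure μ] {r : ℕ → BM Ω}

/-- `√(2^j)`. -/
noncomputable def qq (j : ℕ) : ℝ := Real.sqrt (2 ^ j)

theorem qq_sq (j : ℕ) : qq j * qq j = 2 ^ j := Real.mul_self_sqrt (by positivity)

theorem qq_gt (j : ℕ) (hj : 0 < j) : 4 / 3 < qq j := by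
  apply Real.lt_sqrt_of_sq_lt
  have : (2 : ℝ) ^ 1 ≤ 2 ^ j := pow_le_pow_right₀ (by norm_num) hj
  norm_num at this ⊢
  linarith

/-- the functions `u_{j,k}`. -/
noncomputable def uu (r : ℕ → BM Ω) (j k : ℕ) : BM Ω :=
  qq j • at' r j k + (1 / (qq j - 1)) • (qq j • at' r j 0 - 1)

theorem uu_mem (j k : ℕ) : uu r j k ∈ AA r j := by
  unfold uu
  exact add_mem (Subalgebra.smul_mem _ (at_mem _ _) _)
    (Subalgebra.smul_mem _ (Subalgebra.sub_mem _ (Subalgebra.smul_mem _ (at_mem _ _) _)
      (one_mem _)) _)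

theorem Ex_at' (h : SignSystem μ r) (j k : ℕ) : Ex μ (at' r j k) = 1 / (qq j * qq j) := by
  rw [Ex_at h, qq_sq, one_div_pow]

theorem Ex_uu (h : SignSystem μ r) (j k : ℕ) (hj : 0 < j) : Ex μ (uu r j k) = 0 := by
  unfold uu
  have h1 := qq_gt j hj
  have h2 : qq j - 1 ≠ 0 := by linarith
  have h3 : qq j ≠ 0 := by linarith
  simp only [map_add, map_smul, map_sub, Ex_at' h, Ex_one, smul_eq_mul]
  field_simp
  ring

theorem at_mul_uu_aux (h : SignSystem μ r) (j k l : ℕ) (hk : k < 2 ^ j) (hl : l < 2 ^ j)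
    (hk0 : k ≠ 0) (hl0 : l ≠ 0) :
    uu r j k * uu r j l = (qq j * qq j) • (at' r j k * at' r j l)
      - (qq j / (qq j - 1)) • at' r j k - (qq j / (qq j - 1)) • at' r j l
      + (1 / (qq j - 1) ^ 2) • ((qq j * qq j - 2 * qq j) • at' r j 0 + 1) := by
  have z1 : at' r j k * at' r j 0 = 0 := at_mul h j k 0 hk (by positivity) hk0
  have z2 : at' r j l * at' r j 0 = 0 := at_mul h j l 0 hl (by positivity) hl0
  have z3 : at' r j 0 * at' r j 0 = at' r j 0 := at_sq h j 0
  unfold uu
  set q := qq j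
  set A := at' r j k
  set B := at' r j l
  set Z := at' r j 0
  have e : (q • A + (1 / (q - 1)) • (q • Z - 1)) * (q • B + (1 / (q - 1)) • (q • Z - 1)) =
      (q * q) • (A * B) + (q * (1 / (q - 1)) * q) • (A * Z) - (q * (1 / (q - 1))) • A
      + (q * (1 / (q - 1)) * q) • (B * Z) - (q * (1 / (q - 1))) • B +
      (1 / (q - 1)) • (1 / (q - 1)) • ((q * q) • (Z * Z) - (2 * q) • Z + 1) := by
    simp only [Algebra.smul_def, map_mul, map_ofNat]
    ring
  rw [e, z1, z2, z3, smul_zero, add_zero, add_zero, smul_smul, sub_smul]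
  rw [show q * (1 / (q - 1)) = q / (q - 1) by ring,
    show 1 / (q - 1) * (1 / (q - 1)) = 1 / (q - 1) ^ 2 by rw [div_mul_div_comm, one_mul, sq]]

theorem Ex_uu_uu (h : SignSystem μ r) (j k l : ℕ) (hj : 0 < j) (hk : k < 2 ^ j) (hl : l < 2 ^ j)
    (hk0 : k ≠ 0) (hl0 : l ≠ 0) : Ex μ (uu r j k * uu r j l) = if k = l then 1 else 0 := by
  have h1 := qq_gt j hj
  have h2 : qq j - 1 ≠ 0 := by linarith
  have h3 : qq j ≠ 0 := by linarith
  rw [at_mul_uu_aux h j k l hk hl hk0 hl0]
  by_cases hkl : k = l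
  · subst hkl
    rw [at_sq h, if_pos rfl]
    simp only [map_add, map_smul, map_sub, Ex_at' h, Ex_one, smul_eq_mul]
    field_simp
    ring
  · rw [at_mul h j k l hk hl hkl, if_neg hkl]
    simp only [map_add, map_smul, map_sub, Ex_at' h, Ex_one, smul_eq_mul, map_zero]
    field_simp
    ring

/-- the functions of level `j`. -/
noncomputable def chiL (r : ℕ → BM Ω) (j s : ℕ) : BM Ω := if j = 0 then 1 else r j * uu r j (s + 1)

/-- the number of functions of level `j`. -/
def KL (j : ℕ) : ℕ := if j = 0 then 1 else 2 ^ j - 1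

theorem KL_pos (j : ℕ) : 0 < KL j := by
  unfold KL
  split_ifs with hj
  · norm_num
  · have : 2 ^ 1 ≤ 2 ^ j := Nat.pow_le_pow_right (by norm_num) (by omega)
    omega

/-- the sequence `χ`. -/
noncomputable def chi (r : ℕ → BM Ω) (b : ℕ) : BM Ω := chiL r (blk KL b) (b - tt KL (blk KL b))

theorem ip_chiL (h : SignSystem μ r) (j j' s s' : ℕ) (hs : s < KL j) (hs' : s' < KL j') :
    ip μ (chiL r j s) (chiL r j' s') = if j = j' ∧ s = s' then 1 else 0 := by
  unfold chiL
  by_cases hj : j = 0
  · subst hj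
    rw [if_pos rfl]
    have hs0 : s = 0 := by simp only [KL, if_true] at hs; omega
    by_cases hj' : j' = 0
    · subst hj'
      have hs0' : s' = 0 := by simp only [KL, if_true] at hs'; omega
      rw [if_pos rfl, ip_eq_Ex, one_mul, Ex_one, if_pos ⟨rfl, by omega⟩]
    · rw [if_neg hj', ip_eq_Ex, one_mul, Ex_r_mul h j' _ (uu_mem _ _), if_neg]
      rintro ⟨h1, _⟩
      exact hj' h1.symm
  · rw [if_neg hj]
    by_cases hj' : j' = 0
    · subst hj'
      rw [if_pos rfl, ip_eq_Ex, mul_one, Ex_r_mul h j _ (uu_mem _ _), if_neg]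
      rintro ⟨h1, _⟩
      exact hj h1
    · rw [if_neg hj']
      by_cases hjj : j = j'
      · subst hjj
        rw [ip_level_eq h]
        unfold KL at hs hs'
        rw [if_neg hj] at hs hs'
        rw [Ex_uu_uu h j (s + 1) (s' + 1) (by omega) (by omega) (by omega) (by omega) (by omega)]
        by_cases hss : s = s'
        · rw [if_pos (by omega), if_pos ⟨rfl, hss⟩]
        · rw [if_neg (by omega), if_neg (fun hh => hss hh.2)]
      · rw [ip_level_ne h j j' hjj _ _ (uu_mem _ _) (uu_mem _ _), if_neg (fun hh => hjj hh.1)]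

theorem pos_lt (b : ℕ) : b - tt KL (blk KL b) < KL (blk KL b) := by
  have h1 := tt_blk_le KL b
  have h2 := lt_tt_blk_succ KL KL_pos b
  rw [tt_succ] at h2
  omega

theorem ip_chi (h : SignSystem μ r) (b c : ℕ) :
    ip μ (chi r b) (chi r c) = if b = c then 1 else 0 := by
  unfold chi
  rw [ip_chiL h _ _ _ _ (pos_lt b) (pos_lt c)]
  congr 1
  apply propext
  constructor
  · rintro ⟨h1, h2⟩
    have a1 := tt_blk_le KL b
    have a2 := tt_blk_le KL c
    rw [h1] at a1 h2
    omega
  · rintro rfl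
    exact ⟨rfl, rfl⟩

theorem ip_chi_r (h : SignSystem μ r) (b n : ℕ) : ip μ (chi r b) (r n) = 0 := by
  unfold chi chiL
  split_ifs with hj
  · rw [ip_eq_Ex, one_mul]
    have := Ex_r_mul h n 1 (one_mem _)
    rwa [mul_one] at this
  · by_cases hn : blk KL b = n
    · subst hn
      have := ip_level_eq h (blk KL b) (uu r (blk KL b) (b - tt KL (blk KL b) + 1)) 1
      rw [mul_one, mul_one] at this
      rw [this, Ex_uu h _ _ (by omega)]
    · have := ip_level_ne h _ n hn (uu r (blk KL b) (b - tt KL (blk KL b) + 1)) 1 (uu_mem _ _)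
        (one_mem _)
      rwa [mul_one] at this

theorem ip_r (h : SignSystem μ r) (n m : ℕ) : ip μ (r n) (r m) = if n = m then 1 else 0 := by
  split_ifs with hnm
  · subst hnm
    have := ip_level_eq h n 1 1
    rwa [mul_one, mul_one, Ex_one] at this
  · have := ip_level_ne h n m hnm 1 1 (one_mem _) (one_mem _)
    rwa [mul_one, mul_one] at this

theorem chi_eq (j s : ℕ) (hs : s < KL j) : chi r (tt KL j + s) = chiL r j s := by
  have : blk KL (tt KL j + s) = j := by
    apply blk_eq KL KL_pos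
    · omega
    · rw [tt_succ]; omega
  unfold chi
  rw [this, Nat.add_sub_cancel_left]

/-- completeness. -/
theorem chi_complete (h : SignSystem μ r) (L : BM Ω →ₗ[ℝ] ℝ) (h1 : ∀ b, L (chi r b) = 0)
    (h2 : ∀ n, L (r n) = 0) (s : Finset ℕ) : L (∏ n ∈ s, r n) = 0 := by
  classical
  have hat : ∀ j k, k < 2 ^ j → L (r j * at' r j k) = 0 := by
    intro j
    rcases Nat.eq_zero_or_pos j with rfl | hj
    · intro k _
      rw [at_zero, mul_one]
      exact h2 0
    have hq := qq_gt j hj
    have hq1 : qq j - 1 ≠ 0 := by linarith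
    have hq0 : qq j ≠ 0 := by linarith
    have hpow : 2 ^ 1 ≤ 2 ^ j := Nat.pow_le_pow_right (by norm_num) hj
    set x : ℕ → ℝ := fun k => L (r j * at' r j k) with hx
    have e1 : ∀ k, k < 2 ^ j → k ≠ 0 → qq j * x k + qq j * x 0 / (qq j - 1) = 0 := by
      intro k hk hk0
      obtain ⟨s, rfl⟩ : ∃ s, k = s + 1 := ⟨k - 1, by omega⟩
      have hsK : s < KL j := by
        unfold KL
        rw [if_neg (by omega)]
        omega
      have := h1 (tt KL j + s)
      rw [chi_eq j s hsK] at this
      unfold chiL uu at this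
      rw [if_neg (by omega), mul_add, mul_smul_comm, mul_smul_comm, mul_sub, mul_smul_comm, mul_one,
        map_add, map_smul, map_smul, map_sub, map_smul, h2] at this
      simp only [smul_eq_mul, sub_zero] at this
      rw [← this, hx]
      ring
    have e2 : ∑ k ∈ range (2 ^ j), x k = 0 := by
      rw [hx]
      simp only
      rw [← map_sum, ← Finset.mul_sum, at_sum, mul_one]
      exact h2 j
    have e3 : ∀ k ∈ range (2 ^ j), qq j * x k + qq j * x 0 / (qq j - 1) =
        if k = 0 then qq j * x 0 + qq j * x 0 / (qq j - 1) else 0 := by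
      intro k hk
      rw [Finset.mem_range] at hk
      split_ifs with hk0
      · rw [hk0]
      · exact e1 k hk hk0
    have e4 := Finset.sum_congr rfl e3
    rw [Finset.sum_add_distrib, ← Finset.mul_sum, e2, Finset.sum_const, Finset.card_range,
      Finset.sum_ite_eq', if_pos (Finset.mem_range.mpr (by omega)), nsmul_eq_mul, mul_zero,
      zero_add] at e4
    have hK : ((2 ^ j : ℕ) : ℝ) = qq j * qq j := by
      rw [qq_sq]; push_cast; rfl
    rw [hK] at e4
    have hx0 : x 0 = 0 := by
      have e5 : qq j * qq j * (qq j * x 0) = qq j * x 0 * (qq j - 1) + qq j * x 0 := by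
        field_simp at e4
        nlinarith [e4]
      have e6 : qq j * qq j * (qq j - 1) * x 0 = 0 := by nlinarith
      rcases mul_eq_zero.mp e6 with e7 | e7
      · exfalso
        exact (mul_ne_zero (mul_ne_zero hq0 hq0) hq1) e7
      · exact e7
    intro k hk
    by_cases hk0 : k = 0
    · rw [hk0]; exact hx0
    · have := e1 k hk hk0
      rw [hx0] at this
      simp only [mul_zero, zero_div, add_zero] at this
      exact (mul_eq_zero.mp this).resolve_left hq0
  rcases s.eq_empty_or_nonempty with rfl | hne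
  · rw [Finset.prod_empty]
    have := h1 0
    have hb : chi r 0 = 1 := by
      have := chi_eq (r := r) 0 0 (KL_pos 0)
      rw [tt_zero] at this
      rw [this]
      unfold chiL
      rw [if_pos rfl]
    rwa [hb] at this
  · set j := s.max' hne with hj
    have hjs : j ∈ s := Finset.max'_mem _ _
    rw [← Finset.mul_prod_erase s _ hjs]
    have hF : ∏ n ∈ s.erase j, r n ∈ AA r j := by
      refine Subalgebra.prod_mem _ fun n hn => r_mem_AA ?_
      exact lt_of_le_of_ne (Finset.le_max' _ _ (Finset.mem_of_mem_erase hn))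
        (Finset.ne_of_mem_erase hn)
    obtain ⟨c, hc⟩ := AA_eq h j _ hF
    rw [hc, Finset.mul_sum, map_sum]
    refine Finset.sum_eq_zero fun k hk => ?_
    rw [mul_smul_comm, map_smul, hat j k (Finset.mem_range.mp hk), smul_zero]

end H13.Dbl
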