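import Mathlib
import Pool.Agent.H13.Dbl.Chi

set_option autoImplicit false

open MeasureTheory Finset Filter Topology
open scoped ENNReal

namespace H13.Dbl

open Pool.Agent.Results.MP_aa1cf3_an

variable {Ω : Type*} [MeasurableSpace Ω]
variable {μ : Measure Ω} [IsProbabilityMeasure μ] {r : ℕ → BM Ω}

theorem coe_sum_apply {ι : Type*} (s : Finset ι) (f : ι → BM Ω) (ω : Ω) :
    ((∑ i ∈ s, f i : BM Ω) : Ω → ℝ) ω = ∑ i ∈ s, (f i : Ω → ℝ) ω := by
  rw [AddSubmonoidClass.coe_finsetSum, Finset.sum_apply]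

theorem coe_smul_apply (c : ℝ) (f : BM Ω) (ω : Ω) :
    ((c • f : BM Ω) : Ω → ℝ) ω = c * (f : Ω → ℝ) ω := rfl

theorem coe_mul_apply (f g : BM Ω) (ω : Ω) :
    ((f * g : BM Ω) : Ω → ℝ) ω = (f : Ω → ℝ) ω * (g : Ω → ℝ) ω := rfl

/-- square sum over level `j`. -/
noncomputable def wsq (d : ℕ → ℝ) (j : ℕ) : ℝ := ∑ m ∈ Ico (tt KL j) (tt KL (j + 1)), d m ^ 2

theorem wsq_nonneg (d : ℕ → ℝ) (j : ℕ) : 0 ≤ wsq d j := Finset.sum_nonneg fun _ _ => sq_nonneg _

theorem wsq_eq (d : ℕ → ℝ) (j : ℕ) : wsq d j = ∑ s ∈ range (KL j), d (tt KL j + s) ^ 2 := by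
  unfold wsq
  rw [Finset.sum_Ico_eq_sum_range, tt_succ, Nat.add_sub_cancel_left]

/-- first majorant. -/
noncomputable def gJ (r : ℕ → BM Ω) (d : ℕ → ℝ) (j : ℕ) : BM Ω :=
  if j = 0 then d 0 • 1 else ∑ s ∈ range (KL j), (d (tt KL j + s) * qq j) • at' r j (s + 1)

/-- second majorant. -/
noncomputable def eJ (r : ℕ → BM Ω) (d : ℕ → ℝ) (j : ℕ) : BM Ω :=
  if j = 0 then 0 else (qq j / (qq j - 1) * Real.sqrt (wsq d j)) • (qq j • at' r j 0 - 1)

theorem KL_lt {j s : ℕ} (hj : j ≠ 0) (hs : s < KL j) : s + 1 < 2 ^ j := by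
  unfold KL at hs
  rw [if_neg hj] at hs
  omega

theorem ip_gJ (h : SignSystem μ r) (d : ℕ → ℝ) (j : ℕ) : ip μ (gJ r d j) (gJ r d j) = wsq d j := by
  rw [wsq_eq]
  unfold gJ
  by_cases hj : j = 0
  · subst hj
    rw [if_pos rfl]
    simp only [map_smul, LinearMap.smul_apply, smul_eq_mul, ip_eq_Ex, mul_one, Ex_one, KL,
      if_true, Finset.sum_range_one, tt_zero, add_zero]
    ring
  · rw [if_neg hj]
    have hq := qq_gt j (Nat.pos_of_ne_zero hj)
    have hq0 : qq j ≠ 0 := by linarith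
    simp only [map_sum, map_smul, LinearMap.sum_apply, LinearMap.smul_apply, smul_eq_mul, ip_eq_Ex]
    refine Finset.sum_congr rfl fun s hs => ?_
    rw [Finset.mem_range] at hs
    rw [Finset.sum_eq_single s]
    · rw [at_sq h, Ex_at' h]
      field_simp
    · intro s' hs' hne
      rw [Finset.mem_range] at hs'
      rw [at_mul h j _ _ (KL_lt hj hs') (KL_lt hj hs) (by omega), map_zero, mul_zero]
    · intro hs'
      exact absurd (Finset.mem_range.mpr hs) hs'

theorem ip_eJ (h : SignSystem μ r) (d : ℕ → ℝ) (j : ℕ) :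
    ip μ (eJ r d j) (eJ r d j) ≤ 32 * wsq d j := by
  unfold eJ
  have hw := wsq_nonneg d j
  by_cases hj : j = 0
  · rw [if_pos hj]
    simp only [map_zero]
    positivity
  · rw [if_neg hj]
    have hq := qq_gt j (Nat.pos_of_ne_zero hj)
    have hq0 : qq j ≠ 0 := by linarith
    have hq1 : 0 < qq j - 1 := by linarith
    have e : ip μ (qq j • at' r j 0 - 1) (qq j • at' r j 0 - 1) = 2 - 2 / qq j := by
      have : (qq j • at' r j 0 - 1) * (qq j • at' r j 0 - 1) =
          (qq j * qq j) • (at' r j 0 * at' r j 0) - (2 * qq j) • at' r j 0 + 1 := by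
        simp only [Algebra.smul_def, map_mul, map_ofNat]
        ring
      rw [ip_eq_Ex, this, at_sq h]
      simp only [map_add, map_smul, map_sub, Ex_at' h, Ex_one, smul_eq_mul]
      field_simp
      ring
    simp only [map_smul, LinearMap.smul_apply, smul_eq_mul, e]
    have hp : qq j / (qq j - 1) ≤ 4 := by
      rw [div_le_iff₀ hq1]; linarith
    have hp0 : 0 ≤ qq j / (qq j - 1) := by positivity
    have hs := Real.mul_self_sqrt hw
    have h2 : 2 - 2 / qq j ≤ 2 := by
      have : 0 ≤ 2 / qq j := by positivity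
      linarith
    have h20 : 0 ≤ 2 - 2 / qq j := by
      rw [← e]; exact ip_self_nonneg μ _
    have h16 : (qq j / (qq j - 1)) * (qq j / (qq j - 1)) ≤ 16 := by nlinarith
    calc qq j / (qq j - 1) * Real.sqrt (wsq d j) * (qq j / (qq j - 1) * Real.sqrt (wsq d j) *
          (2 - 2 / qq j)) = ((qq j / (qq j - 1)) * (qq j / (qq j - 1))) *
          (Real.sqrt (wsq d j) * Real.sqrt (wsq d j)) * (2 - 2 / qq j) := by ring
      _ = ((qq j / (qq j - 1)) * (qq j / (qq j - 1))) * wsq d j * (2 - 2 / qq j) := by rw [hs]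
      _ ≤ 16 * wsq d j * 2 := by
          apply mul_le_mul (mul_le_mul_of_nonneg_right h16 hw) h2 h20 (by positivity)
      _ = 32 * wsq d j := by ring

theorem ae_small (f : ℕ → BM Ω) (C : ℝ) (w : ℕ → ℝ) (hw : Summable w)
    (hf : ∀ j, ip μ (f j) (f j) ≤ C * w j) :
    ∀ᵐ ω ∂μ, Tendsto (fun j => |(f j : Ω → ℝ) ω|) atTop (𝓝 0) := by
  have h1 : ∀ᵐ ω ∂μ, Tendsto (fun j => (f j : Ω → ℝ) ω) atTop (𝓝 0) := by
    refine ae_tendsto_zero _ (fun j => BM.measurable (f j)) ?_
    have e : ∀ j, ∫⁻ ω, ‖(f j : Ω → ℝ) ω‖ₑ ^ 2 ∂μ = ENNReal.ofReal (ip μ (f j) (f j)) := by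
      intro j
      rw [lintegral_enorm_pow μ (f j) 2 (by decide), ip_self_eq]
    simp_rw [e]
    have hs : Summable fun j => ip μ (f j) (f j) :=
      Summable.of_nonneg_of_le (fun j => ip_self_nonneg μ _) hf (hw.mul_left C)
    exact hs.tsum_ofReal_ne_top
  filter_upwards [h1] with ω hω
  have := hω.abs
  rwa [abs_zero] at this

theorem first_bound (h : SignSystem μ r) (d : ℕ → ℝ) (j t : ℕ) (hj : j ≠ 0) (ht : t ≤ KL j)
    (ω : Ω) : |∑ s ∈ range t, d (tt KL j + s) * (qq j * (at' r j (s + 1) : Ω → ℝ) ω)| ≤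
      |(gJ r d j : Ω → ℝ) ω| := by
  have hg : (gJ r d j : Ω → ℝ) ω =
      ∑ s ∈ range (KL j), d (tt KL j + s) * (qq j * (at' r j (s + 1) : Ω → ℝ) ω) := by
    unfold gJ
    rw [if_neg hj, coe_sum_apply]
    refine Finset.sum_congr rfl fun s _ => ?_
    rw [coe_smul_apply, mul_assoc]
  rw [hg]
  have hval : ∀ t, t ≤ KL j → ∑ s ∈ range t, d (tt KL j + s) *
      (qq j * (at' r j (s + 1) : Ω → ℝ) ω) =
      if 1 ≤ kap r j ω ∧ kap r j ω ≤ t then d (tt KL j + (kap r j ω - 1)) * qq j else 0 := by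
    intro t ht
    have : ∀ s ∈ range t, d (tt KL j + s) * (qq j * (at' r j (s + 1) : Ω → ℝ) ω) =
        if s + 1 = kap r j ω then d (tt KL j + (kap r j ω - 1)) * qq j else 0 := by
      intro s hs
      rw [Finset.mem_range] at hs
      rw [at_apply h j (s + 1) (KL_lt hj (by omega))]
      split_ifs with hk
      · rw [← hk, Nat.add_sub_cancel, mul_one]
      · ring
    rw [Finset.sum_congr rfl this]
    split_ifs with hk
    · rw [Finset.sum_eq_single (kap r j ω - 1)]
      · rw [if_pos (by omega)]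
      · intro s _ hs
        rw [if_neg (by omega)]
      · intro hs
        rw [Finset.mem_range] at hs
        omega
    · refine Finset.sum_eq_zero fun s hs => ?_
      rw [Finset.mem_range] at hs
      rw [if_neg (by omega)]
  rw [hval t ht, hval _ le_rfl]
  by_cases hk : 1 ≤ kap r j ω ∧ kap r j ω ≤ t
  · rw [if_pos hk, if_pos ⟨hk.1, by omega⟩]
  · rw [if_neg hk, abs_zero]
    exact abs_nonneg _

theorem second_bound (d : ℕ → ℝ) (j t : ℕ) (hj : j ≠ 0) (ht : t ≤ KL j)
    (ω : Ω) : |∑ s ∈ range t, d (tt KL j + s) *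
      (1 / (qq j - 1) * (qq j * (at' r j 0 : Ω → ℝ) ω - 1))| ≤ |(eJ r d j : Ω → ℝ) ω| := by
  have hq := qq_gt j (Nat.pos_of_ne_zero hj)
  have hq1 : 0 < qq j - 1 := by linarith
  have hg : (eJ r d j : Ω → ℝ) ω = qq j / (qq j - 1) * Real.sqrt (wsq d j) *
      (qq j * (at' r j 0 : Ω → ℝ) ω - 1) := by
    unfold eJ
    rw [if_neg hj]
    rfl
  rw [hg, ← Finset.sum_mul]
  have e : qq j / (qq j - 1) * Real.sqrt (wsq d j) * (qq j * (at' r j 0 : Ω → ℝ) ω - 1) =
      (qq j * Real.sqrt (wsq d j)) * (1 / (qq j - 1) * (qq j * (at' r j 0 : Ω → ℝ) ω - 1)) := by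
    ring
  rw [e, abs_mul, abs_mul (qq j * Real.sqrt (wsq d j))]
  refine mul_le_mul_of_nonneg_right ?_ (abs_nonneg _)
  have hqs : 0 ≤ qq j * Real.sqrt (wsq d j) := mul_nonneg (by linarith) (Real.sqrt_nonneg _)
  rw [abs_of_nonneg hqs]
  apply abs_le_of_sq_le_sq _ hqs
  have h1 : (∑ s ∈ range t, d (tt KL j + s)) ^ 2 ≤ (t : ℝ) * ∑ s ∈ range t, d (tt KL j + s) ^ 2 := by
    have := sq_sum_le_card_mul_sum_sq (s := range t) (f := fun s => d (tt KL j + s))
    rwa [Finset.card_range] at this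
  have h2 : ∑ s ∈ range t, d (tt KL j + s) ^ 2 ≤ wsq d j := by
    rw [wsq_eq]
    exact Finset.sum_le_sum_of_subset_of_nonneg (Finset.range_mono ht) fun _ _ _ => sq_nonneg _
  have h3 : (t : ℝ) ≤ qq j * qq j := by
    rw [qq_sq]
    have : t ≤ 2 ^ j := by
      unfold KL at ht
      rw [if_neg hj] at ht
      exact ht.trans (Nat.sub_le _ _)
    exact_mod_cast this
  have h4 : 0 ≤ ∑ s ∈ range t, d (tt KL j + s) ^ 2 := Finset.sum_nonneg fun _ _ => sq_nonneg _
  calc (∑ s ∈ range t, d (tt KL j + s)) ^ 2 ≤ (t : ℝ) * ∑ s ∈ range t, d (tt KL j + s) ^ 2 := h1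
    _ ≤ (qq j * qq j) * wsq d j := by gcongr
    _ = (qq j * Real.sqrt (wsq d j)) ^ 2 := by
        rw [mul_pow, Real.sq_sqrt (wsq_nonneg d j), sq]

theorem chi_conv (h : SignSystem μ r) (d : ℕ → ℝ) (hd : Summable fun b => d b ^ 2) :
    ∀ᵐ ω ∂μ, SeriesConverges (fun b => d b * (chi r b : Ω → ℝ) ω) := by
  have hw : Summable (wsq d) := summable_blocks KL _ (fun n => sq_nonneg _) hd
  -- full levels
  set G : ℕ → BM Ω := fun j => if j = 0 then 0 else
    ∑ s ∈ range (KL j), d (tt KL j + s) • uu r j (s + 1) with hG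
  have hGA : ∀ j, G j ∈ AA r j := by
    intro j
    rw [hG]
    simp only
    split_ifs with hj
    · exact zero_mem _
    · exact Subalgebra.sum_mem _ fun s _ => Subalgebra.smul_mem _ (uu_mem _ _) _
  have hGG : ∀ j, Ex μ (G j * G j) ≤ wsq d j := by
    intro j
    rw [hG]
    simp only
    split_ifs with hj
    · rw [mul_zero, map_zero]; exact wsq_nonneg d j
    · rw [wsq_eq, ← ip_eq_Ex]
      simp only [map_sum, map_smul, LinearMap.sum_apply, LinearMap.smul_apply, smul_eq_mul,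
        ip_eq_Ex]
      refine le_of_eq (Finset.sum_congr rfl fun s hs => ?_)
      rw [Finset.mem_range] at hs
      rw [Finset.sum_eq_single s]
      · rw [Ex_uu_uu h j _ _ (by omega) (KL_lt hj hs) (KL_lt hj hs) (by omega) (by omega),
          if_pos rfl]
        ring
      · intro s' hs' hne
        rw [Finset.mem_range] at hs'
        rw [Ex_uu_uu h j _ _ (by omega) (KL_lt hj hs') (KL_lt hj hs) (by omega) (by omega),
          if_neg (by omega), mul_zero]
      · intro hs'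
        exact absurd (Finset.mem_range.mpr hs) hs'
  have hGs : Summable fun j => Ex μ (G j * G j) :=
    Summable.of_nonneg_of_le (fun j => by rw [← ip_eq_Ex]; exact ip_self_nonneg μ _) hGG hw
  filter_upwards [level_conv h G hGA hGs,
    ae_small (μ := μ) (gJ r d) 1 (wsq d) hw (fun j => by rw [ip_gJ h, one_mul]),
    ae_small (μ := μ) (eJ r d) 32 (wsq d) hw (ip_eJ h d)] with ω h1 h2 h3
  have hval : ∀ j t, t ≤ KL j → ∑ m ∈ Ico (tt KL j) (tt KL j + t), d m * (chi r m : Ω → ℝ) ω =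
      ∑ s ∈ range t, d (tt KL j + s) * (chiL r j s : Ω → ℝ) ω := by
    intro j t ht
    rw [Finset.sum_Ico_eq_sum_range, Nat.add_sub_cancel_left]
    refine Finset.sum_congr rfl fun s hs => ?_
    rw [Finset.mem_range] at hs
    rw [chi_eq j s (by omega)]
  have hsum := h2.add h3
  rw [add_zero] at hsum
  refine conv_blocks KL KL_pos _ ?_ _ hsum ?_
  · have h4 : SeriesConverges (fun j => if j = 0 then d 0 else 0) := by
      refine ⟨d 0, tendsto_atTop_of_eventually_const (i₀ := 1) fun n hn => ?_⟩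
      rw [Finset.sum_ite_eq' (range n) 0 (fun _ => d 0), if_pos (Finset.mem_range.mpr (by omega))]
    have := seriesConverges_add h4 h1
    convert this using 2 with j
    rw [tt_succ, hval j _ le_rfl]
    by_cases hj : j = 0
    · subst hj
      rw [if_pos rfl]
      have : G 0 = 0 := by rw [hG]; simp
      rw [this, mul_zero]
      simp [KL, chiL, tt_zero]
    · rw [if_neg hj, zero_add]
      have : G j = ∑ s ∈ range (KL j), d (tt KL j + s) • uu r j (s + 1) := by
        rw [hG]; simp only; rw [if_neg hj]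
      rw [this, Finset.mul_sum, coe_sum_apply]
      refine Finset.sum_congr rfl fun s _ => ?_
      unfold chiL
      rw [if_neg hj, mul_smul_comm, coe_smul_apply]
  · intro j n hn1 hn2
    obtain ⟨t, rfl⟩ : ∃ t, n = tt KL j + t := ⟨n - tt KL j, by omega⟩
    rw [tt_succ] at hn2
    have ht : t ≤ KL j := by omega
    rw [hval j t ht]
    by_cases hj : j = 0
    · subst hj
      have : t = 0 ∨ t = 1 := by
        simp only [KL, if_true] at ht
        omega
      rcases this with rfl | rfl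
      · rw [Finset.range_zero, Finset.sum_empty, abs_zero]
        positivity
      · rw [Finset.sum_range_one, tt_zero]
        unfold chiL gJ eJ
        rw [if_pos rfl, if_pos rfl, if_pos rfl, coe_smul_apply]
        simp
    · have e : ∑ s ∈ range t, d (tt KL j + s) * (chiL r j s : Ω → ℝ) ω =
          (r j : Ω → ℝ) ω * (∑ s ∈ range t, d (tt KL j + s) *
            (qq j * (at' r j (s + 1) : Ω → ℝ) ω) + ∑ s ∈ range t, d (tt KL j + s) *
            (1 / (qq j - 1) * (qq j * (at' r j 0 : Ω → ℝ) ω - 1))) := by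
        rw [← Finset.sum_add_distrib, Finset.mul_sum]
        refine Finset.sum_congr rfl fun s _ => ?_
        unfold chiL uu
        rw [if_neg hj, coe_mul_apply]
        have : ((qq j • at' r j (s + 1) + (1 / (qq j - 1)) • (qq j • at' r j 0 - 1) : BM Ω) :
            Ω → ℝ) ω = qq j * (at' r j (s + 1) : Ω → ℝ) ω +
            1 / (qq j - 1) * (qq j * (at' r j 0 : Ω → ℝ) ω - 1) := rfl
        rw [this]
        ring
      rw [e, abs_mul]
      have hr : |(r j : Ω → ℝ) ω| = 1 := by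
        rcases h.sign j ω with hh | hh <;> rw [hh] <;> simp
      rw [hr, one_mul]
      exact (abs_add_le _ _).trans (add_le_add (first_bound h d j t hj ht ω)
        (second_bound d j t hj ht ω))

/-- **Theorem B**: the building blocks from a complete system of signs. -/
theorem theoremB (h : SignSystem μ r) (hc : ∀ f : Ω → ℝ, MemLp f 2 μ →
    (∀ s : Finset ℕ, ∫ ω, f ω * ((∏ n ∈ s, r n : BM Ω) : Ω → ℝ) ω ∂μ = 0) → f =ᵐ[μ] 0) :
    Base μ (chi r) r where
  r_le := fun n ω => by rcases h.sign n ω with hh | hh <;> rw [hh] <;> simp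
  χχ := fun b => by rw [ip_chi h, if_pos rfl]
  χχ' := fun b c hbc => by rw [ip_chi h, if_neg hbc]
  rr := fun n => by rw [ip_r h, if_pos rfl]
  rr' := fun n m hnm => by rw [ip_r h, if_neg hnm]
  χr := ip_chi_r h
  complete := fun f hf h1 h2 => hc f hf fun s =>
    chi_complete h (pair μ f (hf.integrable (by norm_num))) h1 h2 s
  conv := chi_conv h
  L4 := signs_L4 h

end H13.Dbl
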