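import Mathlib
import Pool.Agent.H13.Dbl.ChiConv

set_option autoImplicit false

open MeasureTheory Finset Filter Topology
open scoped ENNReal

namespace H13.Dbl

open Pool.Agent.Results.MP_aa1cf3_an

/-- the sign of the `n`-th binary digit. -/
noncomputable def sg (n : ℕ) (x : ℝ) : ℝ := if Even ⌊2 ^ (n + 1) * x⌋ then 1 else -1

theorem sg_sign (n : ℕ) (x : ℝ) : sg n x = 1 ∨ sg n x = -1 := by
  unfold sg
  split_ifs
  · exact Or.inl rfl
  · exact Or.inr rfl

theorem measurable_sg (n : ℕ) : Measurable (sg n) := by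
  unfold sg
  have hf : Measurable fun x : ℝ => ⌊2 ^ (n + 1) * x⌋ :=
    Int.measurable_floor.comp (measurable_const.mul measurable_id)
  exact Measurable.ite (hf (show MeasurableSet {z : ℤ | Even z} from trivial)) measurable_const
    measurable_const

theorem sg_abs (n : ℕ) (x : ℝ) : |sg n x| ≤ 1 := by
  rcases sg_sign n x with h | h <;> rw [h] <;> simp

/-- one-dimensional Walsh functions. -/
noncomputable def ww (t : Finset ℕ) (x : ℝ) : ℝ := ∏ n ∈ t, sg n x

theorem measurable_ww (t : Finset ℕ) : Measurable (ww t) :=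
  Finset.measurable_prod _ fun n _ => measurable_sg n

theorem ww_abs (t : Finset ℕ) (x : ℝ) : |ww t x| ≤ 1 := by
  unfold ww
  rw [Finset.abs_prod]
  exact Finset.prod_le_one (fun _ _ => abs_nonneg _) fun n _ => sg_abs n x

theorem ww_intervalIntegrable (t : Finset ℕ) (a b : ℝ) :
    IntervalIntegrable (ww t) volume a b := by
  rw [intervalIntegrable_iff]
  refine Measure.integrableOn_of_bounded (M := 1) ?_ (measurable_ww t).aestronglyMeasurable
    (Eventually.of_forall fun x => ?_)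
  · simp
  · rw [Real.norm_eq_abs]; exact ww_abs t x

theorem sg_zero_half {x : ℝ} (h0 : 0 < x) (h1 : x < 1) : sg 0 (x / 2) = 1 := by
  unfold sg
  have : ⌊(2 : ℝ) ^ (0 + 1) * (x / 2)⌋ = 0 := by
    rw [Int.floor_eq_iff]
    constructor <;> push_cast <;> linarith
  rw [this, if_pos (by decide)]

theorem sg_zero_half' {x : ℝ} (h0 : 0 < x) (h1 : x < 1) : sg 0 ((x + 1) / 2) = -1 := by
  unfold sg
  have : ⌊(2 : ℝ) ^ (0 + 1) * ((x + 1) / 2)⌋ = 1 := by
    rw [Int.floor_eq_iff]
    constructor <;> push_cast <;> linarith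
  rw [this, if_neg (by decide)]

theorem sg_succ_half (n : ℕ) (x : ℝ) : sg (n + 1) (x / 2) = sg n x := by
  unfold sg
  have : (2 : ℝ) ^ (n + 1 + 1) * (x / 2) = 2 ^ (n + 1) * x := by ring
  rw [this]

theorem sg_succ_half' (n : ℕ) (x : ℝ) : sg (n + 1) ((x + 1) / 2) = sg n x := by
  unfold sg
  have : (2 : ℝ) ^ (n + 1 + 1) * ((x + 1) / 2) = 2 ^ (n + 1) * x + ((2 ^ (n + 1) : ℤ) : ℝ) := by
    push_cast
    ring
  rw [this, Int.floor_add_intCast]
  have he : Even ((2 : ℤ) ^ (n + 1)) := by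
    rw [Int.even_pow]
    exact ⟨by decide, by omega⟩
  have : Even (⌊(2 : ℝ) ^ (n + 1) * x⌋ + 2 ^ (n + 1)) ↔ Even ⌊(2 : ℝ) ^ (n + 1) * x⌋ := by
    rw [Int.even_add]
    tauto
  simp only [this]

theorem integral_congr_01 (f g : ℝ → ℝ) (h : ∀ x, 0 < x → x < 1 → f x = g x) :
    ∫ x in (0 : ℝ)..1, f x = ∫ x in (0 : ℝ)..1, g x := by
  rw [intervalIntegral.integral_of_le zero_le_one, intervalIntegral.integral_of_le zero_le_one,
    integral_Ioc_eq_integral_Ioo, integral_Ioc_eq_integral_Ioo]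
  exact setIntegral_congr_fun measurableSet_Ioo fun x hx => h x hx.1 hx.2

theorem integral_split (t : Finset ℕ) : ∫ x in (0 : ℝ)..1, ww t x =
    (1 / 2) * (∫ x in (0 : ℝ)..1, ww t (x / 2)) +
      (1 / 2) * ∫ x in (0 : ℝ)..1, ww t ((x + 1) / 2) := by
  have h1 : ∫ x in (0 : ℝ)..1, ww t (x / 2) = 2 * ∫ x in (0 : ℝ)..(1 / 2), ww t x := by
    rw [intervalIntegral.integral_comp_div (f := ww t) (by norm_num : (2 : ℝ) ≠ 0)]
    simp
  have h2 : ∫ x in (0 : ℝ)..1, ww t ((x + 1) / 2) = 2 * ∫ x in (1 / 2 : ℝ)..1, ww t x := by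
    rw [intervalIntegral.integral_comp_add_right (f := fun x => ww t (x / 2)) 1,
      intervalIntegral.integral_comp_div (f := ww t) (by norm_num : (2 : ℝ) ≠ 0)]
    norm_num
  rw [h1, h2, ← intervalIntegral.integral_add_adjacent_intervals
    (ww_intervalIntegrable t 0 (1 / 2)) (ww_intervalIntegrable t (1 / 2) 1)]
  ring

theorem integral_ww : ∀ (N : ℕ) (t : Finset ℕ), (∀ n ∈ t, n < N) → t.Nonempty →
    ∫ x in (0 : ℝ)..1, ww t x = 0 := by
  intro N
  induction N with
  | zero =>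
    intro t ht hne
    obtain ⟨n, hn⟩ := hne
    exact absurd (ht n hn) (Nat.not_lt_zero _)
  | succ N ih =>
    intro t ht hne
    by_cases h0 : 0 ∈ t
    · rw [integral_split]
      have e : ∫ x in (0 : ℝ)..1, ww t ((x + 1) / 2) = ∫ x in (0 : ℝ)..1, -ww t (x / 2) := by
        apply integral_congr_01
        intro x hx0 hx1
        unfold ww
        rw [← Finset.mul_prod_erase t _ h0, ← Finset.mul_prod_erase t (fun n => sg n (x / 2)) h0,
          sg_zero_half hx0 hx1, sg_zero_half' hx0 hx1, neg_one_mul, one_mul]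
        congr 1
        refine Finset.prod_congr rfl fun n hn => ?_
        obtain ⟨m, rfl⟩ : ∃ m, n = m + 1 := ⟨n - 1, by
          have := Finset.ne_of_mem_erase hn; omega⟩
        rw [sg_succ_half', sg_succ_half]
      rw [e, intervalIntegral.integral_neg]
      ring
    · obtain ⟨t', rfl⟩ : ∃ t' : Finset ℕ, t = t'.map ⟨Nat.succ, Nat.succ_injective⟩ := by
        refine ⟨t.image Nat.pred, ?_⟩
        ext n
        simp only [Finset.mem_map, Finset.mem_image, Function.Embedding.coeFn_mk]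
        constructor
        · intro hn
          have : n ≠ 0 := fun hh => h0 (hh ▸ hn)
          exact ⟨n.pred, ⟨n, hn, rfl⟩, Nat.succ_pred this⟩
        · rintro ⟨m, ⟨k, hk, rfl⟩, rfl⟩
          have : k ≠ 0 := fun hh => h0 (hh ▸ hk)
          rwa [Nat.succ_eq_add_one, ← Nat.succ_eq_add_one, Nat.succ_pred this]
      have e1 : ∀ x, ww (t'.map ⟨Nat.succ, Nat.succ_injective⟩) (x / 2) = ww t' x := by
        intro x
        unfold ww
        rw [Finset.prod_map]
        exact Finset.prod_congr rfl fun n _ => sg_succ_half n x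
      have e2 : ∀ x, ww (t'.map ⟨Nat.succ, Nat.succ_injective⟩) ((x + 1) / 2) = ww t' x := by
        intro x
        unfold ww
        rw [Finset.prod_map]
        exact Finset.prod_congr rfl fun n _ => sg_succ_half' n x
      rw [integral_split]
      simp_rw [e2, e1]
      have hlt : ∀ n ∈ t', n < N := by
        intro n hn
        have := ht (n + 1) (Finset.mem_map.mpr ⟨n, hn, rfl⟩)
        omega
      rw [ih t' hlt (Finset.map_nonempty.mp hne)]
      ring

/-- the measure on `[0,1)`. -/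
noncomputable def nu : Measure ℝ := volume.restrict (Set.Ico 0 1)

instance : IsProbabilityMeasure nu := ⟨by simp [nu]⟩

theorem integral_nu_ww (t : Finset ℕ) (ht : t.Nonempty) : ∫ x, ww t x ∂nu = 0 := by
  unfold nu
  rw [integral_Ico_eq_integral_Ioo, ← integral_Ioc_eq_integral_Ioo,
    ← intervalIntegral.integral_of_le zero_le_one]
  refine integral_ww (t.sup id + 1) t (fun n hn => ?_) ht
  exact Nat.lt_succ_of_le (Finset.le_sup (f := id) hn)

theorem lam_eq : lam = nu.prod nu := by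
  unfold nu lam unitSquare
  rw [Measure.prod_restrict, Measure.volume_eq_prod, ← Measure.prod_restrict,
    ← Measure.prod_restrict, Measure.restrict_congr_set (Ico_ae_eq_Icc (μ := volume))]

instance : IsProbabilityMeasure lam := by
  rw [lam_eq]
  infer_instance

/-- the signs on the square. -/
noncomputable def rr (n : ℕ) : BM (ℝ × ℝ) :=
  ⟨fun z => if n % 2 = 0 then sg (n / 2) z.1 else sg (n / 2) z.2, by
    refine ⟨?_, 1, fun z => ?_⟩
    · split_ifs
      · exact (measurable_sg _).comp measurable_fst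
      · exact (measurable_sg _).comp measurable_snd
    · split_ifs
      · exact sg_abs _ _
      · exact sg_abs _ _⟩

theorem rr_apply (n : ℕ) (z : ℝ × ℝ) :
    (rr n : ℝ × ℝ → ℝ) z = if n % 2 = 0 then sg (n / 2) z.1 else sg (n / 2) z.2 := rfl

theorem prod_rr_apply (s : Finset ℕ) (z : ℝ × ℝ) :
    ((∏ n ∈ s, rr n : BM (ℝ × ℝ)) : ℝ × ℝ → ℝ) z =
      ww ((s.filter fun n => n % 2 = 0).image (· / 2)) z.1 *
        ww ((s.filter fun n => ¬ n % 2 = 0).image (· / 2)) z.2 := by
  have h1 : ((∏ n ∈ s, rr n : BM (ℝ × ℝ)) : ℝ × ℝ → ℝ) z = ∏ n ∈ s, (rr n : ℝ × ℝ → ℝ) z := by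
    rw [SubmonoidClass.coe_finsetProd, Finset.prod_apply]
  rw [h1, ← Finset.prod_filter_mul_prod_filter_not s (fun n => n % 2 = 0)]
  unfold ww
  rw [Finset.prod_image, Finset.prod_image]
  · congr 1
    · refine Finset.prod_congr rfl fun n hn => ?_
      rw [rr_apply, if_pos (Finset.mem_filter.mp hn).2]
    · refine Finset.prod_congr rfl fun n hn => ?_
      rw [rr_apply, if_neg (Finset.mem_filter.mp hn).2]
  · intro a ha b hb hab
    have h1 := (Finset.mem_filter.mp ha).2
    have h2 := (Finset.mem_filter.mp hb).2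
    simp only at hab
    omega
  · intro a ha b hb hab
    have h1 := (Finset.mem_filter.mp ha).2
    have h2 := (Finset.mem_filter.mp hb).2
    simp only at hab
    omega

theorem rr_system : SignSystem lam rr where
  sign := by
    intro n z
    rw [rr_apply]
    split_ifs
    · exact sg_sign _ _
    · exact sg_sign _ _
  walsh := by
    intro s hs
    rw [Ex_apply, lam_eq]
    simp_rw [prod_rr_apply]
    rw [integral_prod_mul]
    obtain ⟨n, hn⟩ := hs
    by_cases hn2 : n % 2 = 0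
    · rw [integral_nu_ww, zero_mul]
      exact ⟨n / 2, Finset.mem_image.mpr ⟨n, Finset.mem_filter.mpr ⟨hn, hn2⟩, rfl⟩⟩
    · rw [mul_comm, integral_nu_ww, zero_mul]
      exact ⟨n / 2, Finset.mem_image.mpr ⟨n, Finset.mem_filter.mpr ⟨hn, hn2⟩, rfl⟩⟩

theorem floor_eq_of_sg {x y : ℝ} (hx : 0 ≤ x ∧ x < 1) (hy : 0 ≤ y ∧ y < 1)
    (h : ∀ n, sg n x = sg n y) (m : ℕ) : ⌊(2 : ℝ) ^ m * x⌋ = ⌊(2 : ℝ) ^ m * y⌋ := by
  induction m with
  | zero =>
    have h1 : ⌊(2 : ℝ) ^ 0 * x⌋ = 0 := by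
      rw [Int.floor_eq_iff]; constructor <;> push_cast <;> linarith [hx.1, hx.2]
    have h2 : ⌊(2 : ℝ) ^ 0 * y⌋ = 0 := by
      rw [Int.floor_eq_iff]; constructor <;> push_cast <;> linarith [hy.1, hy.2]
    rw [h1, h2]
  | succ m ih =>
    have key : ∀ z : ℝ, ⌊(2 : ℝ) ^ (m + 1) * z⌋ = 2 * ⌊(2 : ℝ) ^ m * z⌋ ∨
        ⌊(2 : ℝ) ^ (m + 1) * z⌋ = 2 * ⌊(2 : ℝ) ^ m * z⌋ + 1 := by
      intro z
      have e : (2 : ℝ) ^ (m + 1) * z = 2 * (2 ^ m * z) := by ring
      rw [e]
      have h1 := Int.floor_le ((2 : ℝ) ^ m * z)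
      have h2 := Int.lt_floor_add_one ((2 : ℝ) ^ m * z)
      have h3 : 2 * ⌊(2 : ℝ) ^ m * z⌋ ≤ ⌊2 * ((2 : ℝ) ^ m * z)⌋ := by
        rw [Int.le_floor]; push_cast; linarith
      have h4 : ⌊2 * ((2 : ℝ) ^ m * z)⌋ < 2 * ⌊(2 : ℝ) ^ m * z⌋ + 2 := by
        rw [Int.floor_lt]; push_cast; linarith
      omega
    have hs := h m
    unfold sg at hs
    have kx := key x
    have ky := key y
    rw [ih] at kx
    by_cases ex : Even ⌊(2 : ℝ) ^ (m + 1) * x⌋
    · by_cases ey : Even ⌊(2 : ℝ) ^ (m + 1) * y⌋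
      · rw [Int.even_iff] at ex ey; omega
      · rw [if_pos ex, if_neg ey] at hs; norm_num at hs
    · by_cases ey : Even ⌊(2 : ℝ) ^ (m + 1) * y⌋
      · rw [if_neg ex, if_pos ey] at hs; norm_num at hs
      · rw [Int.even_iff] at ex ey; omega

theorem eq_of_sg {x y : ℝ} (hx : 0 ≤ x ∧ x < 1) (hy : 0 ≤ y ∧ y < 1)
    (h : ∀ n, sg n x = sg n y) : x = y := by
  by_contra hne
  have hpos : 0 < |x - y| := abs_pos.mpr (sub_ne_zero.mpr hne)
  obtain ⟨m, hm⟩ := pow_unbounded_of_one_lt (1 / |x - y|) (one_lt_two (α := ℝ))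
  have hf := floor_eq_of_sg hx hy h m
  have h1 := Int.abs_sub_lt_one_of_floor_eq_floor hf
  rw [← mul_sub, abs_mul, abs_of_pos (by positivity : (0 : ℝ) < 2 ^ m)] at h1
  rw [div_lt_iff₀ hpos] at hm
  linarith

theorem kap_eq_rr {z z' : ℝ × ℝ} (h : ∀ n, kap rr n z = kap rr n z') (n : ℕ) :
    (rr n : ℝ × ℝ → ℝ) z = (rr n : ℝ × ℝ → ℝ) z' := by
  have h1 := h n
  have h2 := h (n + 1)
  rw [kap, kap, h1] at h2
  have h3 : (if (rr n : ℝ × ℝ → ℝ) z = 1 then 0 else 1 : ℕ) =
      if (rr n : ℝ × ℝ → ℝ) z' = 1 then 0 else 1 := by omega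
  rcases rr_system.sign n z with h4 | h4 <;> rcases rr_system.sign n z' with h5 | h5
  · rw [h4, h5]
  · rw [h4, h5] at h3; norm_num at h3
  · rw [h4, h5] at h3; norm_num at h3
  · rw [h4, h5]

/-- the half-open square. -/
def EE : Set (ℝ × ℝ) := Set.Ico 0 1 ×ˢ Set.Ico 0 1

theorem measurableSet_EE : MeasurableSet EE := measurableSet_Ico.prod measurableSet_Ico

theorem kap_injOn : Set.InjOn (fun z n => kap rr n z) EE := by
  intro z hz z' hz' hzz
  have h := kap_eq_rr (fun n => congrFun hzz n)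
  have h1 : z.1 = z'.1 := by
    apply eq_of_sg ⟨hz.1.1, hz.1.2⟩ ⟨hz'.1.1, hz'.1.2⟩
    intro n
    have := h (2 * n)
    rw [rr_apply, rr_apply, if_pos (by omega), if_pos (by omega)] at this
    rwa [show 2 * n / 2 = n by omega] at this
  have h2 : z.2 = z'.2 := by
    apply eq_of_sg ⟨hz.2.1, hz.2.2⟩ ⟨hz'.2.1, hz'.2.2⟩
    intro n
    have := h (2 * n + 1)
    rw [rr_apply, rr_apply, if_neg (by omega), if_neg (by omega)] at this
    rwa [show (2 * n + 1) / 2 = n by omega] at this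
  exact Prod.ext h1 h2

theorem lam_EE : lam EEᶜ = 0 := by
  rw [lam_eq]
  unfold nu
  rw [Measure.prod_restrict, Measure.restrict_apply measurableSet_EE.compl]
  unfold EE
  simp

/-- the σ-algebra generated by the signs. -/
@[reducible] noncomputable def GG : MeasurableSpace (ℝ × ℝ) := ⨆ n, (filt rr n : MeasurableSpace (ℝ × ℝ))

theorem rr_complete (f : ℝ × ℝ → ℝ) (hf : MemLp f 2 lam)
    (h0 : ∀ s : Finset ℕ, ∫ z, f z * ((∏ n ∈ s, rr n : BM (ℝ × ℝ)) : ℝ × ℝ → ℝ) z ∂lam = 0) :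
    f =ᵐ[lam] 0 := by
  classical
  have hfi : Integrable f lam := hf.integrable (by norm_num)
  -- all of the algebras
  have hAA : ∀ n, ∀ F ∈ AA rr n, ∫ z, f z * (F : ℝ × ℝ → ℝ) z ∂lam = 0 := by
    intro n F hF
    have hF' : F ∈ Submodule.span ℝ (Submonoid.closure (rr '' {l | l < n}) : Set (BM (ℝ × ℝ))) := by
      rw [← Algebra.adjoin_eq_span]
      exact hF
    have hle : Submodule.span ℝ (Submonoid.closure (rr '' {l | l < n}) : Set (BM (ℝ × ℝ))) ≤
        LinearMap.ker (pair lam f hfi) := by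
      rw [Submodule.span_le]
      intro x hx
      obtain ⟨s, hs, rfl⟩ := mem_closure_W rr_system n x hx
      exact h0 s
    exact hle hF'
  have hfilt : ∀ n, ∀ B, MeasurableSet[filt rr n] B → ∫ z in B, f z ∂lam = 0 := by
    intro n B hB
    obtain ⟨F, hF, hFi⟩ := filt_indicator rr_system n B hB
    rw [← hAA n F hF, ← integral_indicator ((filt rr).le n B hB)]
    congr 1
    ext z
    rw [hFi]
    by_cases hz : z ∈ B
    · rw [Set.indicator_of_mem hz, Set.indicator_of_mem hz]; simp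
    · rw [Set.indicator_of_notMem hz, Set.indicator_of_notMem hz]; simp
  have hGle : GG ≤ (inferInstance : MeasurableSpace (ℝ × ℝ)) := iSup_le fun n => (filt rr).le n
  have hG : ∀ B, MeasurableSet[GG] B → ∫ z in B, f z ∂lam = 0 := by
    intro B hB
    refine MeasurableSpace.induction_on_inter (m := GG)
      (C := fun B _ => ∫ z in B, f z ∂lam = 0)
      (MeasurableSpace.generateFrom_iUnion_measurableSet fun n => (filt rr n :
        MeasurableSpace (ℝ × ℝ))).symm ?_ ?_ ?_ ?_ ?_ B hB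
    · refine isPiSystem_iUnion_of_monotone _ (fun n => ?_) ?_
      · exact (filt rr n).isPiSystem_measurableSet
      · intro n m hnm B hB
        exact (filt rr).mono hnm B hB
    · simp
    · intro B hB
      obtain ⟨n, hn⟩ := Set.mem_iUnion.mp hB
      exact hfilt n B hn
    · intro B hB ih
      have hBm : MeasurableSet B := hGle B hB
      have htot : ∫ z, f z ∂lam = 0 := by
        have := h0 ∅
        simpa using this
      have := integral_add_compl hBm hfi
      rw [ih, htot, zero_add] at this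
      exact this
    · intro g hd hm ih
      rw [integral_iUnion (fun i => hGle _ (hm i)) hd hfi.integrableOn]
      simp [ih]
  refine hfi.ae_eq_zero_of_forall_setIntegral_eq_zero fun A hA _ => ?_
  have hmeas : Measurable (fun z n => kap rr n z) := measurable_pi_iff.mpr fun n => measurable_kap n
  have himg : MeasurableSet ((fun z n => kap rr n z) '' (A ∩ EE)) :=
    (hA.inter measurableSet_EE).image_of_measurable_injOn hmeas
      (kap_injOn.mono Set.inter_subset_right)
  set B : Set (ℝ × ℝ) := (fun z n => kap rr n z) ⁻¹' ((fun z n => kap rr n z) '' (A ∩ EE)) with hB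
  have hBm : MeasurableSet[GG] B := by
    have hmG : Measurable[GG] (fun z n => kap rr n z) := by
      refine @measurable_pi_iff _ _ _ GG _ _ |>.mpr fun n => ?_
      have h1 : Measurable[filt rr n] (kap rr n) := comap_measurable (kap rr n)
      exact h1.mono (le_iSup (fun n => (filt rr n : MeasurableSpace (ℝ × ℝ))) n) le_rfl
    exact hmG himg
  have hAB : A =ᵐ[lam] B := by
    have hEE : ∀ᵐ z ∂lam, z ∈ EE := by
      rw [ae_iff]
      exact lam_EE
    filter_upwards [hEE] with z hz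
    apply propext
    constructor
    · intro hzA
      exact ⟨z, ⟨hzA, hz⟩, rfl⟩
    · rintro ⟨z', ⟨hz'A, hz'E⟩, hzz⟩
      have := kap_injOn hz'E hz hzz
      rw [← this]
      exact hz'A
  rw [setIntegral_congr_set hAB]
  exact hG B hBm

theorem main : ∃ φ : ℕ → ℕ → ℝ × ℝ → ℝ, IsDoubleOrthonormalSystem φ ∧ UniformlyBounded φ ∧
    IsCompleteSystem φ ∧ ConvergesAERegularly φ := by
  obtain ⟨Φ, h1, h2, h3, h4⟩ := theoremA (chi rr) rr (theoremB rr_system rr_complete)
  refine ⟨fun i k => (Φ i k : ℝ × ℝ → ℝ), ⟨fun i k => BM.memLp lam (Φ i k) 2, ?_⟩,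
    ⟨4, fun i k => Eventually.of_forall (h2 i k)⟩, h3, h4⟩
  intro i k j l
  exact h1 (i, k) (j, l)

end H13.Dbl
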